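import Pool.Agent.H21.GS.Upper

/-!
# Configurations in generalised stars; families without them
-/

set_option autoImplicit false
set_option linter.unusedSectionVars false

namespace Pool.Agent.H21.GS

open Finset Pool.Agent.H21.Star

variable {V : Type*} [DecidableEq V]

/-- The leaves of a generalised star. -/
theorem leaves (ds : List ℕ) : ∀ E : Finset (Finset V), IsStar ds E →
    ∃ Z : Finset V, Z.card = ds.prod ∧ ∀ z ∈ Z, ∃ e ∈ E, Z ∩ e = {z} := by
  induction ds with
  | nil =>
    rintro E ⟨v, rfl⟩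
    exact ⟨{v}, by simp, fun z hz => ⟨{v}, by simp, by simp at hz; simp [hz]⟩⟩
  | cons d ds ih =>
    rintro E ⟨v, P, hP, hdis, rfl⟩
    choose Z hZ1 hZ2 using fun i => ih (P i) (hP i).1
    have hsub : ∀ i, ∀ z ∈ Z i, ∃ e ∈ P i, z ∈ e := by
      intro i z hz
      obtain ⟨e, he, h⟩ := hZ2 i z hz
      exact ⟨e, he, (mem_inter.1 (h ▸ mem_singleton_self z)).2⟩
    refine ⟨univ.biUnion Z, ?_, ?_⟩
    · rw [card_biUnion]
      · simp [hZ1]
      · intro i _ j _ hij
        change Disjoint (Z i) (Z j)
        rw [disjoint_left]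
        intro z hz hz'
        obtain ⟨e, he, h⟩ := hsub i z hz
        obtain ⟨f, hf, h'⟩ := hsub j z hz'
        exact disjoint_left.1 (hdis i j hij e he f hf) h h'
    · intro z hz
      obtain ⟨i, -, hi⟩ := mem_biUnion.1 hz
      obtain ⟨e, he, h⟩ := hZ2 i z hi
      refine ⟨insert v e, mem_biUnion.2 ⟨i, mem_univ _, mem_image_of_mem _ he⟩, ?_⟩
      ext y
      constructor
      · intro hy
        obtain ⟨hy1, hy2⟩ := mem_inter.1 hy
        obtain ⟨j, -, hj⟩ := mem_biUnion.1 hy1
        obtain ⟨f, hf, h'⟩ := hsub j y hj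
        rcases mem_insert.1 hy2 with rfl | hy2
        · exact absurd h' ((hP j).2 f hf)
        · by_cases hij : i = j
          · subst hij
            rw [← h]
            exact mem_inter.2 ⟨hj, hy2⟩
          · exact absurd h' (disjoint_left.1 (hdis i j hij e he f hf) hy2)
      · intro hy
        rw [mem_singleton] at hy
        subst hy
        exact mem_inter.2 ⟨hz, mem_insert_of_mem (mem_inter.1 (h ▸ mem_singleton_self y)).2⟩

/-- A path of `j + 1` vertices and the leaves below it. -/
theorem cfg (ds : List ℕ) (hds : ∀ d ∈ ds, 1 ≤ d) : ∀ (j : ℕ), j < ds.length →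
    ∀ E : Finset (Finset V), IsStar ds E →
    ∃ A Z : Finset V, A.card = j + 1 ∧ Z.card = (ds.drop j).prod ∧
      ∀ z ∈ Z, ∃ e ∈ E, A ⊆ e ∧ Z ∩ e = {z} := by
  induction ds with
  | nil => exact fun j hj => absurd hj (Nat.not_lt_zero _)
  | cons d ds ih =>
    intro j hj E hE
    have hds' : ∀ d ∈ ds, 1 ≤ d := fun x hx => hds x (by simp [hx])
    rcases j with _ | j
    · obtain ⟨v, P, hP, hdis, hEeq⟩ := hE
      obtain ⟨Z, hZ1, hZ2⟩ := leaves (d :: ds) E ⟨v, P, hP, hdis, hEeq⟩
      refine ⟨{v}, Z, by simp, by simpa using hZ1, fun z hz => ?_⟩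
      obtain ⟨e, he, h⟩ := hZ2 z hz
      refine ⟨e, he, ?_, h⟩
      rw [hEeq] at he
      obtain ⟨i, -, hi⟩ := mem_biUnion.1 he
      obtain ⟨f, -, rfl⟩ := mem_image.1 hi
      simp
    · obtain ⟨v, P, hP, hdis, rfl⟩ := hE
      have hd : 1 ≤ d := hds d (by simp)
      set i0 : Fin d := ⟨0, hd⟩
      obtain ⟨A, Z, hA, hZ, hAZ⟩ := ih hds' j (by simpa using hj) (P i0) (hP i0).1
      have hpos : 0 < Z.card := by
        rw [hZ]
        exact List.prod_pos fun a ha => hds' a (List.mem_of_mem_drop ha)
      obtain ⟨z0, hz0⟩ := card_pos.1 hpos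
      obtain ⟨e0, he0, hAe0, -⟩ := hAZ z0 hz0
      have hvA : v ∉ A := fun h => (hP i0).2 e0 he0 (hAe0 h)
      refine ⟨insert v A, Z, by rw [card_insert_of_notMem hvA, hA], by simpa using hZ, ?_⟩
      intro z hz
      obtain ⟨e, he, h1, h2⟩ := hAZ z hz
      refine ⟨insert v e, mem_biUnion.2 ⟨i0, mem_univ _, mem_image_of_mem _ he⟩,
        insert_subset_insert _ h1, ?_⟩
      have hvZ : v ∉ Z := by
        intro hv
        obtain ⟨f, hf, -, h⟩ := hAZ v hv
        exact (hP i0).2 f hf (mem_inter.1 (h ▸ mem_singleton_self v)).2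
      rw [inter_insert_of_notMem hvZ, h2]

theorem le_ex {n : ℕ} {ds : List ℕ} (F : Finset (Finset (Fin n))) (h1 : ∀ e ∈ F, e.card = ds.length + 1)
    (h2 : ∀ E ⊆ F, ¬ IsStar ds E) : F.card ≤ ex n ds := by
  classical
  unfold ex
  exact Finset.le_sup (f := Finset.card) (mem_filter.2 ⟨mem_univ _, h1, h2⟩)

theorem ex_le {n : ℕ} {ds : List ℕ} {m : ℕ} (h : ∀ F : Finset (Finset (Fin n)),
    (∀ e ∈ F, e.card = ds.length + 1) → (∀ E ⊆ F, ¬ IsStar ds E) → F.card ≤ m) : ex n ds ≤ m := by
  classical
  unfold ex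
  exact Finset.sup_le fun F hF => h F (mem_filter.1 hF).2.1 (mem_filter.1 hF).2.2

/-- Families without a configuration give lower bounds. -/
theorem le_ex_of_cfg {n : ℕ} {ds : List ℕ} (hds : ∀ d ∈ ds, 1 ≤ d) {j : ℕ} (hj : j < ds.length)
    {W : Type*} [Fintype W] [DecidableEq W] (hW : Fintype.card W ≤ n) (F : Finset (Finset W))
    (h1 : ∀ e ∈ F, e.card = ds.length + 1)
    (h2 : ∀ A Z : Finset W, A.card = j + 1 → Z.card = (ds.drop j).prod →
      (∀ z ∈ Z, ∃ e ∈ F, A ⊆ e ∧ Z ∩ e = {z}) → False) : F.card ≤ ex n ds := by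
  classical
  obtain ⟨f⟩ : Nonempty (W ↪ Fin n) := by
    rw [Function.Embedding.nonempty_iff_card_le]
    simpa using hW
  have hcard : (F.image fun e => e.map f).card = F.card :=
    card_image_of_injective _ (Finset.map_injective f)
  rw [← hcard]
  refine le_ex _ ?_ ?_
  · intro e he
    obtain ⟨e', he', rfl⟩ := mem_image.1 he
    rw [card_map, h1 e' he']
  · intro E hE hs
    obtain ⟨A, Z, hA, hZ, hAZ⟩ := cfg ds hds j hj E hs
    have hpos : 0 < Z.card := by
      rw [hZ]
      exact List.prod_pos fun a ha => hds a (List.mem_of_mem_drop ha)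
    have hF : ∀ z ∈ Z, ∃ e' ∈ F, A ⊆ e'.map f ∧ Z ∩ e'.map f = {z} := by
      intro z hz
      obtain ⟨e, he, h3, h4⟩ := hAZ z hz
      obtain ⟨e', he', rfl⟩ := mem_image.1 (hE he)
      exact ⟨e', he', h3, h4⟩
    obtain ⟨z0, hz0⟩ := card_pos.1 hpos
    have eA : (univ.filter fun w => f w ∈ A).map f = A := by
      ext y
      simp only [mem_map, mem_filter, mem_univ, true_and]
      constructor
      · rintro ⟨w, hw, rfl⟩; exact hw
      · intro hy
        obtain ⟨e', -, h3, -⟩ := hF z0 hz0
        obtain ⟨w, -, rfl⟩ := mem_map.1 (h3 hy)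
        exact ⟨w, hy, rfl⟩
    have eZ : (univ.filter fun w => f w ∈ Z).map f = Z := by
      ext y
      simp only [mem_map, mem_filter, mem_univ, true_and]
      constructor
      · rintro ⟨w, hw, rfl⟩; exact hw
      · intro hy
        obtain ⟨e', -, -, h4⟩ := hF y hy
        have : y ∈ e'.map f := (mem_inter.1 (h4 ▸ mem_singleton_self y)).2
        obtain ⟨w, -, rfl⟩ := mem_map.1 this
        exact ⟨w, hy, rfl⟩
    refine h2 (univ.filter fun w => f w ∈ A) (univ.filter fun w => f w ∈ Z) ?_ ?_ ?_
    · rw [← hA, ← card_map f, eA]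
    · rw [← hZ, ← card_map f, eZ]
    · intro w hw
      obtain ⟨e', he', h3, h4⟩ := hF (f w) (mem_filter.1 hw).2
      refine ⟨e', he', ?_, ?_⟩
      · intro a ha
        have := h3 (mem_filter.1 ha).2
        simpa using this
      · ext y
        simp only [mem_inter, mem_filter, mem_univ, true_and, mem_singleton]
        constructor
        · rintro ⟨hy1, hy2⟩
          have : f y ∈ Z ∩ e'.map f := mem_inter.2 ⟨hy1, mem_map_of_mem f hy2⟩
          rw [h4, mem_singleton] at this
          exact f.injective this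
        · rintro rfl
          have : f y ∈ Z ∩ e'.map f := by rw [h4]; exact mem_singleton_self _
          obtain ⟨h5, h6⟩ := mem_inter.1 this
          exact ⟨h5, by simpa using h6⟩

/-- The trivial lower bound. -/
theorem min_pow_le {n : ℕ} {ds : List ℕ} (hds : ∀ d ∈ ds, 1 ≤ d) (hD : 2 ≤ ds.prod)
    (hn : ds.length + 1 ≤ n) : (min n ds.prod) ^ (ds.length + 1) ≤
      (ds.length + 1) ^ (ds.length + 1) * (ds.length + 1).factorial * ex n ds := by
  classical
  have hlen : 0 < ds.length := by
    rcases ds with _ | ⟨d, ds⟩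
    · simp at hD
    · simp
  set r := ds.length + 1 with hr
  rcases Nat.lt_or_ge (min n ds.prod) r with hlt | hge
  · have h1 : 1 ≤ ex n ds := by
      have := le_ex_of_cfg (n := n) hds hlen (W := Fin r) (by simpa using hn) {univ} ?_ ?_
      · simpa using this
      · intro e he
        rw [mem_singleton] at he
        subst he
        simp [hr]
      · intro A Z _ hZ h
        have h2 : 2 ≤ Z.card := by rw [hZ]; simpa using hD
        obtain ⟨z, hz⟩ := card_pos.1 (by omega : 0 < Z.card)
        obtain ⟨e, he, -, h3⟩ := h z hz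
        rw [mem_singleton] at he
        subst he
        rw [inter_univ] at h3
        rw [h3, card_singleton] at h2
        omega
    calc (min n ds.prod) ^ r ≤ r ^ r := Nat.pow_le_pow_left hlt.le _
      _ ≤ r ^ r * r.factorial * ex n ds := by
          rw [mul_assoc]
          exact Nat.le_mul_of_pos_right _ (Nat.mul_pos (Nat.factorial_pos _) h1)
  · set D := min n ds.prod with hDdef
    have h1 : D.choose r ≤ ex n ds := by
      have := le_ex_of_cfg (n := n) hds hlen (W := Fin D) (by simp [hDdef])
        (powersetCard r univ) ?_ ?_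
      · simpa [card_powersetCard] using this
      · intro e he
        exact (mem_powersetCard.1 he).2
      · intro A Z hA hZ h
        have hZ' : Z.card = ds.prod := by simpa using hZ
        have hdis : Disjoint A Z := by
          rw [disjoint_left]
          intro a ha haZ
          have h3 : Z ⊆ {a} := by
            intro z hz
            obtain ⟨e, he, h4, h5⟩ := h z hz
            have : a ∈ Z ∩ e := mem_inter.2 ⟨haZ, h4 ha⟩
            rw [h5, mem_singleton] at this
            rw [mem_singleton, this]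
          have := card_le_card h3
          rw [card_singleton] at this
          omega
        have h3 := card_le_univ (A ∪ Z)
        rw [card_union_of_disjoint hdis, hA, hZ', Fintype.card_fin] at h3
        have : D ≤ ds.prod := min_le_right _ _
        omega
    have h2 := Nat.pow_sub_le_descFactorial D r
    rw [Nat.descFactorial_eq_factorial_mul_choose] at h2
    have h3 : D ≤ r * (D + 1 - r) := by
      obtain ⟨k, hk⟩ : ∃ k, D = r + k := ⟨D - r, by omega⟩
      have e1 : D + 1 - r = k + 1 := by omega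
      rw [e1, hk]
      have : 1 ≤ r := by omega
      nlinarith
    calc D ^ r ≤ (r * (D + 1 - r)) ^ r := Nat.pow_le_pow_left h3 _
      _ = r ^ r * (D + 1 - r) ^ r := mul_pow _ _ _
      _ ≤ r ^ r * (r.factorial * D.choose r) := Nat.mul_le_mul_left _ h2
      _ ≤ r ^ r * (r.factorial * ex n ds) := Nat.mul_le_mul_left _ (Nat.mul_le_mul_left _ h1)
      _ = _ := by ring

end Pool.Agent.H21.GS
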