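import Pool.Agent.H21.GS.Path

/-!
# Colourings, orders and counting
-/

set_option autoImplicit false
set_option linter.unusedSectionVars false

namespace Pool.Agent.H21.GS

open Finset Pool.Agent.H21.Star

/-- The coloured tuples whose set of vertices is an edge. -/
def tuples {n r : ℕ} (F : Finset (Finset (Fin n))) (χ : Fin n → Fin r) : Finset (Fin r → Fin n) :=
  univ.filter fun x => (∀ i, χ (x i) = i) ∧ univ.image x ∈ F

theorem exists_colouring {n r : ℕ} (hr : 0 < r) (F : Finset (Finset (Fin n)))
    (hF : ∀ e ∈ F, e.card = r) :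
    ∃ χ : Fin n → Fin r, F.card ≤ r ^ r * (tuples F χ).card := by
  classical
  rcases F.eq_empty_or_nonempty with rfl | ⟨e0, he0⟩
  · exact ⟨fun _ => ⟨0, hr⟩, by simp⟩
  obtain ⟨v0, hv0⟩ : e0.Nonempty := by
    rw [← card_pos, hF e0 he0]; exact hr
  have : Nonempty (Fin n) := ⟨v0⟩
  have : Nonempty (Fin r) := ⟨⟨0, hr⟩⟩
  have hord : ∀ e ∈ F, ∃ x : Fin r → Fin n, Function.Injective x ∧ univ.image x = e := by
    intro e he
    refine ⟨e.orderEmbOfFin (hF e he), (e.orderEmbOfFin (hF e he)).injective, ?_⟩
    exact e.image_orderEmbOfFin_univ (hF e he)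
  choose! x hx hx' using hord
  by_contra hcon
  push Not at hcon
  -- the good colourings of an edge
  have hgood : ∀ e ∈ F, (r : ℕ) ^ n ≤
      r ^ r * (univ.filter fun χ : Fin n → Fin r => ∀ i, χ (x e i) = i).card := by
    intro e he
    have hc : (univ : Finset (Fin n → Fin r)).card ≤
        ((univ : Finset (Fin r → Fin r)) ×ˢ
          (univ.filter fun χ : Fin n → Fin r => ∀ i, χ (x e i) = i)).card := by
      refine card_le_card_of_injOn
        (fun χ => (fun i => χ (x e i), fun v => if h : ∃ i, x e i = v then h.choose else χ v)) ?_ ?_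
      · intro χ _
        simp only [coe_product, coe_univ, Set.mem_prod, Set.mem_univ, true_and, coe_filter,
          mem_univ, Set.mem_ofPred_eq]
        intro i
        have h : ∃ j, x e j = x e i := ⟨i, rfl⟩
        rw [dif_pos h]
        exact hx e he h.choose_spec
      · intro χ _ χ' _ h
        simp only [Prod.mk.injEq] at h
        funext v
        by_cases hv : ∃ i, x e i = v
        · obtain ⟨i, rfl⟩ := hv
          exact congrFun h.1 i
        · have := congrFun h.2 v
          simpa [hv] using this
    rw [card_product] at hc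
    simpa using hc
  have hX : ∀ χ, (F.filter fun e => ∀ i, χ (x e i) = i).card ≤ (tuples F χ).card := by
    intro χ
    refine card_le_card_of_injOn x ?_ ?_
    · intro e he
      simp only [coe_filter, Set.mem_ofPred_eq] at he
      simp only [tuples, coe_filter, mem_univ, true_and, Set.mem_ofPred_eq]
      exact ⟨he.2, by rw [hx' e he.1]; exact he.1⟩
    · intro e he e' he' h
      simp only [coe_filter, Set.mem_ofPred_eq] at he he'
      rw [← hx' e he.1, ← hx' e' he'.1, h]
  have hsum : ∑ χ : Fin n → Fin r, (F.filter fun e => ∀ i, χ (x e i) = i).card =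
      ∑ e ∈ F, (univ.filter fun χ : Fin n → Fin r => ∀ i, χ (x e i) = i).card := by
    simp only [card_filter]
    rw [sum_comm]
  have h1 : F.card * r ^ n ≤ r ^ r * ∑ χ : Fin n → Fin r, (tuples F χ).card := by
    calc F.card * r ^ n = ∑ e ∈ F, r ^ n := by rw [sum_const, smul_eq_mul]
      _ ≤ ∑ e ∈ F, r ^ r * (univ.filter fun χ : Fin n → Fin r => ∀ i, χ (x e i) = i).card :=
          sum_le_sum hgood
      _ = r ^ r * ∑ χ : Fin n → Fin r, (F.filter fun e => ∀ i, χ (x e i) = i).card := by
          rw [hsum, mul_sum]
      _ ≤ _ := Nat.mul_le_mul_left _ (sum_le_sum fun χ _ => hX χ)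
  have h2 : r ^ r * ∑ χ : Fin n → Fin r, (tuples F χ).card < F.card * r ^ n := by
    rw [mul_sum]
    calc ∑ χ : Fin n → Fin r, r ^ r * (tuples F χ).card < ∑ χ : Fin n → Fin r, F.card := by
          refine sum_lt_sum_of_nonempty ?_ fun χ _ => hcon χ
          exact ⟨fun _ => ⟨0, hr⟩, mem_univ _⟩
      _ = _ := by rw [sum_const, smul_eq_mul]; simp [mul_comm]
  omega

variable {V : Type*} [DecidableEq V]

/-- Counting tuples position by position. -/
theorem count {r : ℕ} (X : Finset (Fin r → V)) (σ : Fin r → Fin r) (hσ : Function.Bijective σ)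
    (G : Fin r → (Fin r → V) → Finset V) (c : Fin r → ℕ)
    (hG : ∀ k x y, (∀ i, i < k → x (σ i) = y (σ i)) → G k x = G k y)
    (hc : ∀ k x, (G k x).card ≤ c k) (hX : ∀ x ∈ X, ∀ k, x (σ k) ∈ G k x) :
    X.card ≤ ∏ k, c k := by
  classical
  set res : ℕ → (Fin r → V) → List V := fun k x => (List.ofFn fun i => x (σ i)).take k with hres
  have hagree : ∀ k, ∀ x y, res k x = res k y → ∀ i : Fin r, (i : ℕ) < k → x (σ i) = y (σ i) := by
    intro k x y h i hi
    have h1 : (res k x)[(i : ℕ)]? = some (x (σ i)) := by
      simp only [hres]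
      rw [List.getElem?_take_of_lt hi, List.getElem?_ofFn]
      simp
    have h2 : (res k y)[(i : ℕ)]? = some (y (σ i)) := by
      simp only [hres]
      rw [List.getElem?_take_of_lt hi, List.getElem?_ofFn]
      simp
    rw [h, h2] at h1
    exact (Option.some.inj h1).symm
  have key : ∀ k, k ≤ r → (X.image (res k)).card ≤ ∏ i ∈ univ.filter (fun i : Fin r => (i : ℕ) < k), c i := by
    intro k
    induction k with
    | zero =>
      intro _
      have : (univ.filter fun i : Fin r => (i : ℕ) < 0) = ∅ := by
        ext i; simp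
      rw [this, prod_empty]
      refine (card_le_card (?_ : X.image (res 0) ⊆ {[]})).trans (by simp)
      intro p hp
      obtain ⟨x, -, rfl⟩ := mem_image.1 hp
      simp [hres]
    | succ k ih =>
      intro hk
      have hk' : k < r := hk
      have hsub : X.image (res (k + 1)) ⊆ (X.image (res k)).biUnion fun p =>
          (if h : ∃ x ∈ X, res k x = p then G ⟨k, hk'⟩ h.choose else ∅).image fun v => p ++ [v] := by
        intro p hp
        obtain ⟨x, hx, rfl⟩ := mem_image.1 hp
        refine mem_biUnion.2 ⟨res k x, mem_image_of_mem _ hx, ?_⟩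
        have h : ∃ y ∈ X, res k y = res k x := ⟨x, hx, rfl⟩
        rw [dif_pos h]
        have h1 := h.choose_spec
        refine mem_image.2 ⟨x (σ ⟨k, hk'⟩), ?_, ?_⟩
        · rw [hG ⟨k, hk'⟩ h.choose x ?_]
          · exact hX x hx _
          · intro i hi
            exact hagree k _ _ h1.2 i hi
        · simp only [hres]
          rw [List.take_add_one]
          congr 1
          rw [List.getElem?_ofFn]
          simp [hk']
      have hfil : (univ.filter fun i : Fin r => (i : ℕ) < k + 1) =
          insert ⟨k, hk'⟩ (univ.filter fun i : Fin r => (i : ℕ) < k) := by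
        ext i
        simp only [mem_filter, mem_univ, true_and, mem_insert, Fin.ext_iff]
        omega
      rw [hfil, prod_insert (by simp)]
      refine (card_le_card hsub).trans ?_
      refine (card_biUnion_le_card_mul _ _ (c ⟨k, hk'⟩) fun p _ => ?_).trans ?_
      · refine card_image_le.trans ?_
        split
        · exact hc _ _
        · simp
      · rw [mul_comm]
        exact Nat.mul_le_mul_left _ (ih hk'.le)
  have h1 := key r le_rfl
  have h2 : (univ.filter fun i : Fin r => (i : ℕ) < r) = univ := by
    ext i; simp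
  rw [h2] at h1
  refine le_trans (le_of_eq ?_) h1
  symm
  refine card_image_of_injOn ?_
  intro x _ y _ h
  funext i
  obtain ⟨j, rfl⟩ := hσ.2 i
  exact hagree r x y h j j.2

/-- The positions that come before the `k`-th one in the order `σ`. -/
def pre {r : ℕ} (σ : Fin r → Fin r) (k : ℕ) : Finset (Fin r) :=
  (univ.filter fun i : Fin r => (i : ℕ) < k).image σ

/-- **The greedy order**: each position is chosen with the smallest cost. -/
theorem greedy {r : ℕ} (c : Finset (Fin r) → Fin r → ℕ) :
    ∃ σ : Fin r → Fin r, Function.Bijective σ ∧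
      ∀ k l : Fin r, k ≤ l → c (pre σ k) (σ k) ≤ c (pre σ k) (σ l) := by
  classical
  have key : ∀ k, k ≤ r → ∃ L : List (Fin r), L.length = k ∧ L.Nodup ∧
      ∀ a, ∀ h : a < L.length, ∀ q ∉ L.take a, c (L.take a).toFinset L[a] ≤ c (L.take a).toFinset q := by
    intro k
    induction k with
    | zero => exact fun _ => ⟨[], rfl, List.nodup_nil, fun a h => absurd h (Nat.not_lt_zero _)⟩
    | succ k ih =>
      intro hk
      obtain ⟨L, hL, hnd, hL2⟩ := ih (Nat.le_of_succ_le hk)
      have hne : (univ \ L.toFinset).Nonempty := by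
        rw [← card_pos]
        have h1 := le_card_sdiff L.toFinset (univ : Finset (Fin r))
        rw [Finset.card_univ, Fintype.card_fin] at h1
        have h2 := L.toFinset_card_le
        omega
      obtain ⟨p, hp, hmin⟩ := exists_min_image (univ \ L.toFinset) (c L.toFinset) hne
      have hpL : p ∉ L := by simpa using hp
      refine ⟨L ++ [p], by simp [hL], ?_, ?_⟩
      · rw [List.nodup_append]
        refine ⟨hnd, List.nodup_singleton p, ?_⟩
        intro a ha b hb hab
        rw [List.mem_singleton] at hb
        subst hb; subst hab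
        exact hpL ha
      · intro a ha q hq
        rw [List.length_append, List.length_singleton] at ha
        rcases Nat.lt_or_ge a L.length with h | h
        · rw [List.take_append_of_le_length h.le] at hq ⊢
          rw [List.getElem_append_left h]
          exact hL2 a h q hq
        · have : a = L.length := by omega
          subst this
          rw [List.take_left] at hq ⊢
          rw [List.getElem_append_right le_rfl]
          simp only [Nat.sub_self, List.getElem_cons_zero]
          exact hmin q (by simpa using hq)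
  obtain ⟨L, hL, hnd, hL2⟩ := key r le_rfl
  set σ : Fin r → Fin r := fun i => L[(i : ℕ)]'(by rw [hL]; exact i.2) with hσ
  have hinj : Function.Injective σ := by
    intro i j hij
    have := (hnd.getElem_inj_iff).1 hij
    exact Fin.ext this
  have hpre : ∀ k, k ≤ r → pre σ k = (L.take k).toFinset := by
    intro k hk
    ext p
    simp only [pre, mem_image, mem_filter, mem_univ, true_and, List.mem_toFinset]
    rw [List.mem_take_iff_getElem]
    constructor
    · rintro ⟨i, hi, rfl⟩
      exact ⟨i, by rw [hL]; omega, rfl⟩
    · rintro ⟨i, hi, rfl⟩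
      exact ⟨⟨i, by omega⟩, by simp; omega, rfl⟩
  refine ⟨σ, Finite.injective_iff_bijective.1 hinj, ?_⟩
  intro k l hkl
  rw [hpre k k.2.le]
  have hk : (k : ℕ) < L.length := by rw [hL]; exact k.2
  refine hL2 k hk (σ l) ?_
  rw [List.mem_take_iff_getElem]
  rintro ⟨i, hi, h⟩
  have h1 : i = (l : ℕ) := (hnd.getElem_inj_iff).1 h
  have h2 : (k : ℕ) ≤ l := hkl
  omega

end Pool.Agent.H21.GS
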