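import Pool.Agent.H21.GS.Lower

/-!
# The upper bound for the Turan number, and the dominated case
-/

set_option autoImplicit false
set_option linter.unusedSectionVars false

namespace Pool.Agent.H21.GS

open Finset Pool.Agent.H21.Star

theorem no_ostar {n : ℕ} {ds : List ℕ} {F : Finset (Finset (Fin n))}
    (hF : ∀ E ⊆ F, ¬ IsStar ds E) (χ : Fin n → Fin (ds.length + 1))
    (π : Equiv.Perm (Fin (ds.length + 1))) (v : Fin n) :
    ¬ ∃ T, OStar ds v T ∧ ∀ p ∈ T, ∃ x ∈ tuples F χ, (List.ofFn fun i => x (π i)) = p := by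
  rintro ⟨T, hT, hp⟩
  refine hF (T.image List.toFinset) ?_ (OStar.isStar χ hT (cs := List.ofFn π) ?_ ?_)
  · intro e he
    obtain ⟨p, hpT, rfl⟩ := mem_image.1 he
    obtain ⟨x, hx, rfl⟩ := hp p hpT
    have : (List.ofFn fun i => x (π i)).toFinset = univ.image x := by
      ext y
      simp only [List.mem_toFinset, List.mem_ofFn, mem_image, mem_univ, true_and]
      constructor
      · rintro ⟨i, rfl⟩; exact ⟨π i, rfl⟩
      · rintro ⟨i, rfl⟩; exact ⟨π.symm i, by simp⟩
    rw [this]
    exact (mem_filter.1 hx).2.2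
  · intro p hpT
    obtain ⟨x, hx, rfl⟩ := hp p hpT
    rw [List.map_ofFn]
    congr 1
    funext i
    exact (mem_filter.1 hx).2.1 (π i)
  · exact List.nodup_ofFn.2 π.injective

/-- The constant of the upper bound. -/
def C2 (m : ℕ) : ℕ := (m + 1) ^ (m + 1) * (K0 m * K0 m ^ (m + 1)) + 1

theorem ex_le_pow (n : ℕ) (ds : List ℕ) : ex n ds ≤ n ^ (ds.length + 1) := by
  refine ex_le fun F hF _ => ?_
  have h1 : F ⊆ powersetCard (ds.length + 1) univ := fun e he =>
    mem_powersetCard.2 ⟨subset_univ _, hF e he⟩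
  refine (card_le_card h1).trans ?_
  rw [card_powersetCard, Finset.card_univ, Fintype.card_fin]
  exact Nat.choose_le_pow _ _

/-- **The upper bound.** -/
theorem upper_le (n : ℕ) {ds : List ℕ} (hds : ∀ d ∈ ds, 1 ≤ d) :
    ex n ds ≤ C2 ds.length * min (n ^ (ds.length + 1)) (upperSum n ds) := by
  have h1 : ex n ds ≤ C2 ds.length * upperSum n ds := by
    refine ex_le fun F hF hS => ?_
    obtain ⟨χ, hχ⟩ := exists_colouring (Nat.succ_pos _) F hF
    have h2 := upper_tuples (m := ds.length) rfl hds (tuples F χ) (no_ostar hS χ)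
    rw [Fintype.card_fin] at h2
    calc F.card ≤ (ds.length + 1) ^ (ds.length + 1) * (tuples F χ).card := hχ
      _ ≤ (ds.length + 1) ^ (ds.length + 1) *
          (K0 ds.length * K0 ds.length ^ (ds.length + 1) * upperSum n ds) := Nat.mul_le_mul_left _ h2
      _ = (ds.length + 1) ^ (ds.length + 1) * (K0 ds.length * K0 ds.length ^ (ds.length + 1)) *
          upperSum n ds := by ring
      _ ≤ _ := Nat.mul_le_mul_right _ (Nat.le_succ _)
  have h2 : ex n ds ≤ C2 ds.length * n ^ (ds.length + 1) :=
    (ex_le_pow n ds).trans (Nat.le_mul_of_pos_left _ (Nat.succ_pos _))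
  rcases min_choice (n ^ (ds.length + 1)) (upperSum n ds) with h | h <;> rw [h] <;> assumption

theorem upperSum_le {K n : ℕ} {ds : List ℕ} (h : Dominated K ds) :
    upperSum n ds ≤ ds.length * (ds.length * (K + 1) ^ ds.length) * lowerSum n ds := by
  unfold upperSum
  have key : ∀ j ∈ range ds.length, ∀ k ∈ range (ds.length - j),
      n ^ (ds.length - k) * (((ds.drop j).take (k + 1)).prod - 1) ^ (k + 1) ≤
        (K + 1) ^ ds.length * lowerSum n ds := by
    intro j hj k hk
    rw [mem_range] at hj hk
    have h1 := h j (k + 1) (by omega)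
    have h2 : n ^ (ds.length - k) * ((ds.drop (ds.length - (k + 1))).prod - 1) ^ (k + 1) ≤
        lowerSum n ds := by
      unfold lowerSum
      have h3 : ds.length - (k + 1) ∈ range ds.length := mem_range.2 (by omega)
      refine le_trans (le_of_eq ?_) (single_le_sum (f := fun j =>
        n ^ (j + 1) * ((ds.drop j).prod - 1) ^ (ds.length - j)) (fun _ _ => Nat.zero_le _) h3)
      have e1 : ds.length - (k + 1) + 1 = ds.length - k := by omega
      have e2 : ds.length - (ds.length - (k + 1)) = k + 1 := by omega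
      simp only [e1, e2]
    calc n ^ (ds.length - k) * (((ds.drop j).take (k + 1)).prod - 1) ^ (k + 1)
        ≤ n ^ (ds.length - k) * (K * ((ds.drop (ds.length - (k + 1))).prod - 1)) ^ (k + 1) :=
          Nat.mul_le_mul_left _ (Nat.pow_le_pow_left h1 _)
      _ = K ^ (k + 1) * (n ^ (ds.length - k) * ((ds.drop (ds.length - (k + 1))).prod - 1) ^ (k + 1)) := by
          rw [mul_pow]; ring
      _ ≤ (K + 1) ^ ds.length * lowerSum n ds := by
          refine Nat.mul_le_mul ?_ h2
          calc K ^ (k + 1) ≤ (K + 1) ^ (k + 1) := Nat.pow_le_pow_left (Nat.le_succ _) _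
            _ ≤ (K + 1) ^ ds.length := Nat.pow_le_pow_right (Nat.succ_pos _) (by omega)
  calc ∑ j ∈ range ds.length, ∑ k ∈ range (ds.length - j),
        n ^ (ds.length - k) * (((ds.drop j).take (k + 1)).prod - 1) ^ (k + 1)
      ≤ ∑ j ∈ range ds.length, ds.length * ((K + 1) ^ ds.length * lowerSum n ds) := by
        refine sum_le_sum fun j hj => ?_
        refine (sum_le_card_nsmul _ _ _ (key j hj)).trans ?_
        rw [card_range, smul_eq_mul]
        exact Nat.mul_le_mul_right _ (Nat.sub_le _ _)
    _ = _ := by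
        rw [sum_const, card_range, smul_eq_mul]
        ring

/-- Non-decreasing lists are dominated by their last blocks. -/
theorem dominated_of_pairwise {ds : List ℕ} (h : ds.Pairwise (· ≤ ·)) : Dominated 1 ds := by
  intro j k hjk
  rw [one_mul]
  refine Nat.sub_le_sub_right ?_ 1
  refine List.Forall₂.prod_le_prod' ?_
  rw [List.forall₂_iff_get]
  refine ⟨by simp; omega, ?_⟩
  intro i h1 h2
  simp only [List.get_eq_getElem, List.getElem_take, List.getElem_drop]
  simp only [List.length_take, List.length_drop] at h1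
  rw [List.pairwise_iff_getElem] at h
  rcases Nat.lt_or_ge (j + i) (ds.length - k + i) with h3 | h3
  · exact h _ _ _ _ h3
  · have : j + i = ds.length - k + i := by omega
    simp only [this, le_refl]

theorem dominated_le {K n : ℕ} {ds : List ℕ} (hds : ∀ d ∈ ds, 1 ≤ d) (h : Dominated K ds) :
    ex n ds ≤ C2 ds.length * (ds.length * (ds.length * (K + 1) ^ ds.length) + 1) *
      min (n ^ (ds.length + 1)) (lowerSum n ds) := by
  refine (upper_le n hds).trans ?_
  rw [mul_assoc]
  refine Nat.mul_le_mul_left _ ?_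
  rcases le_total (n ^ (ds.length + 1)) (lowerSum n ds) with h1 | h1
  · rw [min_eq_left h1]
    exact (min_le_left _ _).trans (Nat.le_mul_of_pos_left _ (Nat.succ_pos _))
  · rw [min_eq_right h1]
    exact ((min_le_right _ _).trans (upperSum_le h)).trans (Nat.mul_le_mul_right _ (Nat.le_succ _))

end Pool.Agent.H21.GS
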