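import Pool.Agent.H21.GS.Final

/-!
# Two arrows: the upper bound for large `n`
-/

set_option autoImplicit false
set_option linter.unusedSectionVars false

namespace Pool.Agent.H21.GS

open Finset Pool.Agent.H21.Star

/-- The combinatorial lemma on two arrows. -/
theorem two_arrows {m : ℕ} (a : Finset (Fin (m + 1)) → Fin (m + 1) → Prop)
    (mono : ∀ S S' p, S ⊆ S' → a S p → a S' p) (b : Fin (m + 1) → Prop)
    (h : ∀ σ : Fin (m + 1) → Fin (m + 1), Function.Bijective σ →
      (∃ j l : ℕ, j < l ∧ j + 1 < m ∧ ∃ hl : l < m + 1, a (pre σ (j + 1)) (σ ⟨l, hl⟩)) ∨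
      (∃ p, b p)) :
    (∃ p, b p) ∨ ∃ p q, p ≠ q ∧ a (univ \ {p, q}) p ∧ a (univ \ {q}) q := by
  classical
  by_contra hcon
  push Not at hcon
  obtain ⟨hb, hpq⟩ := hcon
  have h' : ∀ σ : Fin (m + 1) → Fin (m + 1), Function.Bijective σ →
      ∃ j l : ℕ, j < l ∧ j + 1 < m ∧ ∃ hl : l < m + 1, a (pre σ (j + 1)) (σ ⟨l, hl⟩) := by
    intro σ hσ
    rcases h σ hσ with h | ⟨p, hp⟩
    · exact h
    · exact absurd hp (hb p)
  -- an arrow from a short beginning, and a position outside of it
  have hshort : ∀ σ : Fin (m + 1) → Fin (m + 1), Function.Bijective σ → ∀ (j l : ℕ) (hl : l < m + 1)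
      (q : Fin (m + 1)), j < l → j < q → (q : ℕ) ≠ l → a (pre σ (j + 1)) (σ ⟨l, hl⟩) →
      a (univ \ {σ ⟨l, hl⟩, σ q}) (σ ⟨l, hl⟩) := by
    intro σ hσ j l hl q hjl hjq hql ha
    refine mono _ _ _ ?_ ha
    intro y hy
    obtain ⟨i, hi, rfl⟩ := mem_image.1 hy
    have hi' : (i : ℕ) < j + 1 := (mem_filter.1 hi).2
    simp only [mem_sdiff, mem_univ, true_and, mem_insert, mem_singleton, not_or]
    refine ⟨fun h => ?_, fun h => ?_⟩
    · have := hσ.1 h
      rw [Fin.ext_iff] at this
      simp only at this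
      omega
    · have := hσ.1 h
      rw [Fin.ext_iff] at this
      omega
  have htarget : ∀ σ : Fin (m + 1) → Fin (m + 1), Function.Bijective σ → ∀ (j l : ℕ) (hl : l < m + 1),
      j < l → a (pre σ (j + 1)) (σ ⟨l, hl⟩) → a (univ \ {σ ⟨l, hl⟩}) (σ ⟨l, hl⟩) := by
    intro σ hσ j l hl hjl ha
    refine mono _ _ _ ?_ ha
    intro y hy
    obtain ⟨i, hi, rfl⟩ := mem_image.1 hy
    have hi' : (i : ℕ) < j + 1 := (mem_filter.1 hi).2
    simp only [mem_sdiff, mem_univ, true_and, mem_singleton]
    intro h
    have := hσ.1 h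
    rw [Fin.ext_iff] at this
    simp only at this
    omega
  -- the order in which the targets come last
  obtain ⟨σ, hσ, hgr⟩ := greedy (fun (_ : Finset (Fin (m + 1))) p =>
    if a (univ \ {p}) p then 1 else 0)
  obtain ⟨j, l, hjl, hjm, hl, ha⟩ := h' σ hσ
  have hX : ∀ k : Fin (m + 1), l ≤ k → a (univ \ {σ k}) (σ k) := by
    intro k hk
    have h1 := hgr ⟨l, hl⟩ k hk
    rw [if_pos (htarget σ hσ j l hl hjl ha)] at h1
    by_contra h2
    rw [if_neg h2] at h1
    omega
  rcases Nat.lt_or_ge l m with hlm | hlm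
  · -- the last position
    have hm : m < m + 1 := Nat.lt_succ_self m
    refine hpq (σ ⟨l, hl⟩) (σ ⟨m, hm⟩) (fun h => ?_) (hshort σ hσ j l hl ⟨m, hm⟩ hjl (by simp; omega)
      (by simp; omega) ha) (hX ⟨m, hm⟩ (by simp; omega))
    have := hσ.1 h
    rw [Fin.ext_iff] at this
    simp only at this
    omega
  · have hlm' : l = m := by omega
    subst hlm'
    -- the position before the last one
    have hm1 : l - 1 < l + 1 := by omega
    by_cases hc : a (univ \ {σ ⟨l - 1, hm1⟩}) (σ ⟨l - 1, hm1⟩)
    · refine hpq (σ ⟨l, hl⟩) (σ ⟨l - 1, hm1⟩) (fun h => ?_) (hshort σ hσ j l hl ⟨l - 1, hm1⟩ hjl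
        (by simp; omega) (by simp; omega) ha) hc
      have := hσ.1 h
      rw [Fin.ext_iff] at this
      simp only at this
      omega
    · -- there is only one target
      have honly : ∀ p, a (univ \ {p}) p → p = σ ⟨l, hl⟩ := by
        intro p hp
        obtain ⟨k, rfl⟩ := hσ.2 p
        by_contra hne
        have hk : (k : ℕ) ≠ l := fun h => hne (by congr 1; exact Fin.ext h)
        have h1 := hgr k ⟨l - 1, hm1⟩ (by rw [Fin.le_def]; simp only; omega)
        rw [if_pos hp, if_neg hc] at h1
        omega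
      obtain ⟨τ, hτ, hgrτ⟩ := greedy (fun (_ : Finset (Fin (l + 1))) p =>
        if p = σ ⟨l, hl⟩ then 0 else 1)
      obtain ⟨j', l', hjl', hjm', hl', ha'⟩ := h' τ hτ
      have h1 := honly _ (htarget τ hτ j' l' hl' hjl' ha')
      have h2 := hgrτ 0 ⟨l', hl'⟩ (Fin.zero_le _)
      rw [if_pos h1] at h2
      have h3 : τ 0 = σ ⟨l, hl⟩ := by
        by_contra h4
        rw [if_neg h4] at h2
        omega
      have h4 : τ 0 = τ ⟨l', hl'⟩ := by rw [h3, h1]
      have := hτ.1 h4
      rw [Fin.ext_iff] at this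
      simp only [Fin.val_zero] at this
      omega

variable {V : Type*} [DecidableEq V] {m : ℕ}

/-- Counting the tuples with one covered position. -/
theorem count_one [Fintype V] (X : Finset (Fin (m + 1) → V)) (p : Fin (m + 1))
    (G : (Fin (m + 1) → V) → Finset V) (A : ℕ)
    (hG : ∀ x y, (∀ i, i ≠ p → x i = y i) → G x = G y)
    (hc : ∀ x, (G x).card ≤ A) (hX : ∀ x ∈ X, x p ∈ G x) :
    X.card ≤ Fintype.card V ^ m * A := by
  classical
  obtain ⟨σ, hσ, hgr⟩ := greedy (fun (_ : Finset (Fin (m + 1))) q => if q = p then 1 else 0)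
  refine (count X σ hσ (fun k x => if σ k = p then G x else univ)
    (fun k => if σ k = p then A else Fintype.card V) ?_ ?_ ?_).trans ?_
  · intro k x y hxy
    by_cases hk : σ k = p
    · simp only [if_pos hk]
      refine hG x y fun i hi => ?_
      obtain ⟨a, rfl⟩ := hσ.2 i
      refine hxy a ?_
      by_contra hka
      push Not at hka
      have := hgr k a hka
      rw [if_pos hk, if_neg hi] at this
      omega
    · simp only [if_neg hk]
  · intro k x
    by_cases hk : σ k = p
    · simp only [if_pos hk]; exact hc x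
    · simp only [if_neg hk]; exact card_le_univ _
  · intro x hx k
    by_cases hk : σ k = p
    · simp only [if_pos hk]
      have := hX x hx
      rw [← hk] at this
      exact this
    · simp only [if_neg hk]; exact mem_univ _
  · rw [Function.Bijective.prod_comp hσ (fun i => if i = p then A else Fintype.card V)]
    rw [prod_ite, prod_const, prod_const]
    have e1 : (univ.filter fun i : Fin (m + 1) => i = p) = {p} := by ext i; simp
    have e2 : (univ.filter fun i : Fin (m + 1) => ¬ i = p).card = m := by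
      rw [filter_not, e1, card_sdiff_of_subset (subset_univ _), Finset.card_univ, Fintype.card_fin,
        card_singleton]
      omega
    rw [e1, e2, card_singleton, pow_one, mul_comm]

/-- Counting the tuples with two covered positions. -/
theorem count_two [Fintype V] (X : Finset (Fin (m + 1) → V)) (p q : Fin (m + 1)) (hpq : p ≠ q)
    (G G' : (Fin (m + 1) → V) → Finset V) (A : ℕ)
    (hG : ∀ x y, (∀ i, i ≠ p → i ≠ q → x i = y i) → G x = G y)
    (hG' : ∀ x y, (∀ i, i ≠ q → x i = y i) → G' x = G' y)
    (hc : ∀ x, (G x).card ≤ A) (hc' : ∀ x, (G' x).card ≤ A) (hX : ∀ x ∈ X, x p ∈ G x ∧ x q ∈ G' x) :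
    X.card ≤ Fintype.card V ^ (m - 1) * A ^ 2 := by
  classical
  obtain ⟨σ, hσ, hgr⟩ := greedy (fun (_ : Finset (Fin (m + 1))) i =>
    if i = q then 2 else if i = p then 1 else 0)
  refine (count X σ hσ (fun k x => if σ k = p then G x else if σ k = q then G' x else univ)
    (fun k => if σ k = p ∨ σ k = q then A else Fintype.card V) ?_ ?_ ?_).trans ?_
  · intro k x y hxy
    by_cases hk : σ k = p
    · simp only [if_pos hk]
      refine hG x y fun i hi hi' => ?_
      obtain ⟨a, rfl⟩ := hσ.2 i
      refine hxy a ?_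
      by_contra hka
      push Not at hka
      have := hgr k a hka
      rw [hk, if_neg hpq, if_pos rfl, if_neg hi', if_neg hi] at this
      omega
    · by_cases hk' : σ k = q
      · simp only [if_neg hk, if_pos hk']
        refine hG' x y fun i hi => ?_
        obtain ⟨a, rfl⟩ := hσ.2 i
        refine hxy a ?_
        by_contra hka
        push Not at hka
        have := hgr k a hka
        rw [if_pos hk', if_neg hi] at this
        split at this <;> omega
      · simp only [if_neg hk, if_neg hk']
  · intro k x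
    by_cases hk : σ k = p
    · rw [if_pos (Or.inl hk : σ k = p ∨ σ k = q), if_pos hk]; exact hc x
    · by_cases hk' : σ k = q
      · rw [if_pos (Or.inr hk' : σ k = p ∨ σ k = q), if_neg hk, if_pos hk']; exact hc' x
      · rw [if_neg (not_or.2 ⟨hk, hk'⟩ : ¬ (σ k = p ∨ σ k = q)), if_neg hk, if_neg hk']
        exact card_le_univ _
  · intro x hx k
    by_cases hk : σ k = p
    · simp only [if_pos hk]
      have := (hX x hx).1
      rw [← hk] at this
      exact this
    · by_cases hk' : σ k = q
      · simp only [if_neg hk, if_pos hk']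
        have := (hX x hx).2
        rw [← hk'] at this
        exact this
      · simp only [if_neg hk, if_neg hk']; exact mem_univ _
  · rw [Function.Bijective.prod_comp hσ (fun i => if i = p ∨ i = q then A else Fintype.card V)]
    rw [prod_ite, prod_const, prod_const]
    have e1 : (univ.filter fun i : Fin (m + 1) => i = p ∨ i = q) = {p, q} := by ext i; simp
    have e2 : (univ.filter fun i : Fin (m + 1) => ¬ (i = p ∨ i = q)).card = m - 1 := by
      rw [filter_not, e1, card_sdiff_of_subset (subset_univ _), Finset.card_univ, Fintype.card_fin,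
        card_pair hpq]
      omega
    rw [e1, e2, card_pair hpq, mul_comm]

/-- The blocked systems of tuples: the bound with two terms. -/
theorem large_tuples [Fintype V] {ds : List ℕ} (hlen : ds.length = m) (hm : 0 < m)
    (hds : ∀ d ∈ ds, 1 ≤ d) (X : Finset (Fin (m + 1) → V))
    (h : ∀ (π : Equiv.Perm (Fin (m + 1))) (v : V), ¬ ∃ T, OStar ds v T ∧
      ∀ p ∈ T, ∃ x ∈ X, (List.ofFn fun i => x (π i)) = p) :
    X.card ≤ (m + 1) * (Fintype.card V ^ m * (K0 m * (win ds (m - 1) m - 1))) +
      (m + 1) * (m + 1) * (Fintype.card V ^ (m - 1) * (K0 m * (ds.prod - 1)) ^ 2) := by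
  classical
  choose E hE1 hE2 using fun π v => pack ds hds
    (fun p => ∃ x ∈ X, (List.ofFn fun i => x (π i)) = p) v (h π v)
  have hE1' : ∀ π v p l, p.length < l → l ≤ ds.length → (E π v p l).card < win ds p.length l :=
    fun π v p l h1 h2 => hE1 π v p l h1 h2
  set X1 : Fin (m + 1) → Finset (Fin (m + 1) → V) := fun p =>
    X.filter fun x => x p ∈ cover ds E (univ \ {p}) x (win ds (m - 1) m) with hX1
  set X2 : Fin (m + 1) × Fin (m + 1) → Finset (Fin (m + 1) → V) := fun t =>
    X.filter fun x => t.1 ≠ t.2 ∧ x t.1 ∈ cover ds E (univ \ {t.1, t.2}) x ds.prod ∧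
      x t.2 ∈ cover ds E (univ \ {t.2}) x ds.prod with hX2
  have hcov : X ⊆ univ.biUnion X1 ∪ univ.biUnion X2 := by
    intro x hx
    have key := two_arrows (fun S p => x p ∈ cover ds E S x ds.prod)
      (fun S S' p hS ha => cover_mono hS le_rfl ha)
      (fun p => x p ∈ cover ds E (univ \ {p}) x (win ds (m - 1) m)) ?_
    · rcases key with ⟨p, hp⟩ | ⟨p, q, hpq, h1, h2⟩
      · exact mem_union_left _ (mem_biUnion.2 ⟨p, mem_univ _, mem_filter.2 ⟨hx, hp⟩⟩)
      · exact mem_union_right _ (mem_biUnion.2 ⟨(p, q), mem_univ _, mem_filter.2 ⟨hx, hpq, h1, h2⟩⟩)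
    · intro σ hσ
      set π : Equiv.Perm (Fin (m + 1)) := Equiv.ofBijective σ hσ with hπ
      have hπσ : ∀ i, π i = σ i := fun i => rfl
      obtain ⟨j, l, hjl, hl0, hl, hmem⟩ := hE2 π (x (π 0)) (List.ofFn fun i : Fin m => x (π i.succ))
        (by simp [hlen]) ⟨x, hx, by rw [List.ofFn_succ]⟩
      have hlm : l < m + 1 := by omega
      have hjm : j < m + 1 := by omega
      have hxl : (List.ofFn fun i : Fin m => x (π i.succ))[l - 1] = x (σ ⟨l, hlm⟩) := by
        rw [List.getElem_ofFn, hπσ]
        congr 2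
        rw [Fin.ext_iff]
        simp only [Fin.val_succ]
        omega
      rw [hxl] at hmem
      have c1 : ∀ W, win ds j l ≤ W → x (σ ⟨l, hlm⟩) ∈ cover ds E (pre σ (j + 1)) x W := by
        intro W hW
        unfold cover
        refine mem_biUnion.2 ⟨(π, ⟨j, hjm⟩, ⟨l, hlm⟩), mem_univ _, ?_⟩
        rw [if_pos]
        · exact hmem
        · refine ⟨hjl, hW, fun a ha => ?_⟩
          have ha' : (a : ℕ) ≤ j := ha
          exact mem_image.2 ⟨a, mem_filter.2 ⟨mem_univ _, by omega⟩, rfl⟩
      rcases Nat.lt_or_ge (j + 1) m with hj | hj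
      · left
        exact ⟨j, l, hjl, hj, hlm, c1 _ (win_le hds _ _)⟩
      · right
        have hj' : j = m - 1 := by omega
        have hl' : l = m := by omega
        refine ⟨σ ⟨l, hlm⟩, ?_⟩
        have := c1 (win ds (m - 1) m) (by rw [hj', hl'])
        refine cover_mono ?_ le_rfl this
        intro y hy
        obtain ⟨i, hi, rfl⟩ := mem_image.1 hy
        have hi' : (i : ℕ) < j + 1 := (mem_filter.1 hi).2
        simp only [mem_sdiff, mem_univ, true_and, mem_singleton]
        intro h
        have := hσ.1 h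
        rw [Fin.ext_iff] at this
        simp only at this
        omega
  have c1 : ∀ p, (X1 p).card ≤ Fintype.card V ^ m * (K0 m * (win ds (m - 1) m - 1)) := by
    intro p
    refine count_one (X1 p) p (fun x => cover ds E (univ \ {p}) x (win ds (m - 1) m)) _ ?_ ?_ ?_
    · intro x y hxy
      refine cover_congr ?_ _
      intro i hi
      exact hxy i (by simpa using hi)
    · exact fun x => card_cover hlen hE1' _ _ _
    · exact fun x hx => (mem_filter.1 hx).2
  have c2 : ∀ t, (X2 t).card ≤ Fintype.card V ^ (m - 1) * (K0 m * (ds.prod - 1)) ^ 2 := by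
    intro t
    by_cases ht : t.1 = t.2
    · have : X2 t = ∅ := filter_eq_empty_iff.2 fun x _ hh => hh.1 ht
      rw [this]
      simp
    · refine count_two (X2 t) t.1 t.2 ht (fun x => cover ds E (univ \ {t.1, t.2}) x ds.prod)
        (fun x => cover ds E (univ \ {t.2}) x ds.prod) _ ?_ ?_ ?_ ?_ ?_
      · intro x y hxy
        refine cover_congr ?_ _
        intro i hi
        simp only [mem_sdiff, mem_univ, true_and, mem_insert, mem_singleton, not_or] at hi
        exact hxy i hi.1 hi.2
      · intro x y hxy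
        refine cover_congr ?_ _
        intro i hi
        exact hxy i (by simpa using hi)
      · exact fun x => card_cover hlen hE1' _ _ _
      · exact fun x =>card_cover hlen hE1' _ _ _
      · exact fun x hx => (mem_filter.1 hx).2.2
  refine (card_le_card hcov).trans ((card_union_le _ _).trans ?_)
  refine Nat.add_le_add ?_ ?_
  · refine (card_biUnion_le_card_mul _ _ _ fun p _ => c1 p).trans ?_
    rw [Finset.card_univ, Fintype.card_fin]
  · refine (card_biUnion_le_card_mul _ _ _ fun p _ => c2 p).trans ?_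
    rw [Finset.card_univ, Fintype.card_prod, Fintype.card_fin]

end Pool.Agent.H21.GS
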