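import Pool.Agent.H21.GS.Large

/-!
# The Turan number for large `n`
-/

set_option autoImplicit false
set_option linter.unusedSectionVars false

namespace Pool.Agent.H21.GS

open Finset Pool.Agent.H21.Star

/-- The constant of the bound with two terms. -/
def C3 (m : ℕ) : ℕ := (m + 1) ^ (m + 1) * ((m + 1) * (m + 1) * K0 m ^ 2)

theorem C3_pos (m : ℕ) : 0 < C3 m := by
  have := K0_pos m
  unfold C3
  positivity

theorem two_terms (m A B x y k : ℕ) (hk : 0 < k) :
    (m + 1) * (A * (k * x)) + (m + 1) * (m + 1) * (B * (k * y) ^ 2) ≤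
      (m + 1) * (m + 1) * k ^ 2 * (A * x + B * y ^ 2) := by
  have h5 : (m + 1) * k ≤ (m + 1) * (m + 1) * k ^ 2 := by
    calc (m + 1) * k = (m + 1) * k * 1 := by ring
      _ ≤ (m + 1) * k * ((m + 1) * k) := Nat.mul_le_mul_left _ (by nlinarith)
      _ = _ := by ring
  have h4 : (m + 1) * (A * (k * x)) ≤ (m + 1) * (m + 1) * k ^ 2 * (A * x) := by
    calc (m + 1) * (A * (k * x)) = (m + 1) * k * (A * x) := by ring
      _ ≤ _ := Nat.mul_le_mul_right _ h5
  calc _ ≤ (m + 1) * (m + 1) * k ^ 2 * (A * x) + (m + 1) * (m + 1) * (B * (k * y) ^ 2) :=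
        Nat.add_le_add_right h4 _
    _ = _ := by ring

theorem large_le (n : ℕ) (ds : List ℕ) (d : ℕ) (hds : ∀ x ∈ ds, 1 ≤ x) (hd : 1 ≤ d) :
    ex n (ds ++ [d]) ≤ C3 (ds.length + 1) *
      (n ^ (ds.length + 1) * (d - 1) + n ^ ds.length * (ds.prod * d - 1) ^ 2) := by
  have hlen : (ds ++ [d]).length = ds.length + 1 := by simp
  have hds' : ∀ x ∈ ds ++ [d], 1 ≤ x := by
    intro x hx
    rcases List.mem_append.1 hx with hx | hx
    · exact hds x hx
    · rw [List.mem_singleton] at hx; subst hx; exact hd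
  have hwin : win (ds ++ [d]) (ds.length + 1 - 1) (ds.length + 1) = d := by
    unfold win
    simp
  have hprod : (ds ++ [d]).prod = ds.prod * d := by simp
  have key : ∀ m, (ds ++ [d]).length = m → m = ds.length + 1 → ex n (ds ++ [d]) ≤ C3 m *
      (n ^ m * (d - 1) + n ^ (m - 1) * (ds.prod * d - 1) ^ 2) := by
    intro m hm hm'
    refine ex_le fun F hF hS => ?_
    obtain ⟨χ, hχ⟩ := exists_colouring (r := (ds ++ [d]).length + 1) (Nat.succ_pos _) F hF
    have h1 := no_ostar hS χ
    subst hm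
    have h2 := large_tuples (m := (ds ++ [d]).length) rfl (by omega) hds' (tuples F χ) h1
    rw [Fintype.card_fin] at h2
    have hwin' : win (ds ++ [d]) ((ds ++ [d]).length - 1) (ds ++ [d]).length = d := by
      rw [hm']; exact hwin
    rw [hwin', hprod] at h2
    have h3 := h2.trans (two_terms (ds ++ [d]).length (n ^ (ds ++ [d]).length)
      (n ^ ((ds ++ [d]).length - 1)) (d - 1) (ds.prod * d - 1) (K0 (ds ++ [d]).length) (K0_pos _))
    refine hχ.trans ((Nat.mul_le_mul_left _ h3).trans (le_of_eq ?_))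
    unfold C3
    ring
  have := key _ hlen rfl
  simpa using this

/-- The lower bound by the last entry. -/
theorem last_le (n : ℕ) (ds : List ℕ) (d : ℕ) (hds : ∀ x ∈ ds, 1 ≤ x) (hd : 1 ≤ d)
    (hn : ds.length + 2 ≤ n) :
    min (n ^ (ds.length + 2)) (n ^ (ds.length + 1) * (d - 1)) ≤
      C1 (ds.length + 2) * ex n (ds ++ [d]) := by
  have hds' : ∀ x ∈ ds ++ [d], 1 ≤ x := by
    intro x hx
    rcases List.mem_append.1 hx with hx | hx
    · exact hds x hx
    · rw [List.mem_singleton] at hx; subst hx; exact hd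
  have h := term_lower (n := n) hds' (j := ds.length) (by simp) (by simp; omega)
  simpa using h

end Pool.Agent.H21.GS
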