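import Pool.Agent.H21.GS.Large2

/-!
# Two terms: the order of magnitude
-/

set_option autoImplicit false
set_option linter.unusedSectionVars false

namespace Pool.Agent.H21.GS

open Finset Pool.Agent.H21.Star

/-- The lower bound by the last two entries. -/
theorem last_two_le (n : ℕ) (ds : List ℕ) (c d : ℕ) (hds : ∀ x ∈ ds, 1 ≤ x) (hc : 1 ≤ c) (hd : 1 ≤ d)
    (hn : ds.length + 3 ≤ n) :
    min (n ^ (ds.length + 3)) (n ^ (ds.length + 2) * (d - 1) + n ^ (ds.length + 1) * (c * d - 1) ^ 2) ≤
      (2 * C1 (ds.length + 3)) * ex n (ds ++ [c, d]) := by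
  have hds' : ∀ x ∈ ds ++ [c, d], 1 ≤ x := by
    intro x hx
    rcases List.mem_append.1 hx with hx | hx
    · exact hds x hx
    · simp only [List.mem_cons, List.not_mem_nil, or_false] at hx
      rcases hx with rfl | rfl
      · exact hc
      · exact hd
  have h1 := term_lower (n := n) hds' (j := ds.length + 1) (by simp) (by simp; omega)
  have h2 := term_lower (n := n) hds' (j := ds.length) (by simp) (by simp; omega)
  have e1 : (ds ++ [c, d]).length = ds.length + 2 := by simp
  have e2 : (ds ++ [c, d]).drop (ds.length + 1) = [d] := by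
    rw [List.drop_append]
    simp
  have e3 : (ds ++ [c, d]).drop ds.length = [c, d] := by
    rw [List.drop_append]
    simp
  rw [e1, e2] at h1
  rw [e1, e3] at h2
  simp only [List.prod_cons, List.prod_nil, mul_one] at h1 h2
  have e4 : ds.length + 2 - (ds.length + 1) = 1 := by omega
  have e5 : ds.length + 2 - ds.length = 2 := by omega
  rw [e4, pow_one] at h1
  rw [e5] at h2
  have h3 : min (n ^ (ds.length + 3)) (n ^ (ds.length + 2) * (d - 1) +
      n ^ (ds.length + 1) * (c * d - 1) ^ 2) ≤
      min (n ^ (ds.length + 3)) (n ^ (ds.length + 2) * (d - 1)) +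
      min (n ^ (ds.length + 3)) (n ^ (ds.length + 1) * (c * d - 1) ^ 2) := by
    omega
  calc _ ≤ _ := h3
    _ ≤ C1 (ds.length + 3) * ex n (ds ++ [c, d]) + C1 (ds.length + 3) * ex n (ds ++ [c, d]) :=
        Nat.add_le_add h1 h2
    _ = _ := by ring

end Pool.Agent.H21.GS
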