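import Pool.Agent.H21.GS.Large3

/-!
# Two terms: the main statement
-/

set_option autoImplicit false
set_option linter.unusedSectionVars false

namespace Pool.Agent.H21.GS

open Finset Pool.Agent.H21.Star

theorem two_upper (n : ℕ) (ds : List ℕ) (c d : ℕ) (hds : ∀ x ∈ ds, 1 ≤ x) (hc : 1 ≤ c) (hd : 1 ≤ d) :
    ex n (ds ++ [c, d]) ≤ C3 (ds.length + 2) *
      (n ^ (ds.length + 2) * (d - 1) + n ^ (ds.length + 1) * (ds.prod * c * d - 1) ^ 2) := by
  have h := large_le n (ds ++ [c]) d (by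
    intro x hx
    rcases List.mem_append.1 hx with hx | hx
    · exact hds x hx
    · rw [List.mem_singleton] at hx; subst hx; exact hc) hd
  simpa using h

theorem two_dom {n r K A C D S T : ℕ} (h1 : A ≤ C * (n ^ (r + 2) * T + n ^ (r + 1) * D ^ 2))
    (h2 : A ≤ n ^ (r + 3)) (hK : D ^ 2 ≤ K * (n * T + S ^ 2)) :
    A ≤ (C * (K + 1) + 1) * min (n ^ (r + 3)) (n ^ (r + 2) * T + n ^ (r + 1) * S ^ 2) := by
  have h3 : n ^ (r + 2) * T + n ^ (r + 1) * D ^ 2 ≤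
      (K + 1) * (n ^ (r + 2) * T + n ^ (r + 1) * S ^ 2) := by
    calc n ^ (r + 2) * T + n ^ (r + 1) * D ^ 2 ≤
        n ^ (r + 2) * T + n ^ (r + 1) * (K * (n * T + S ^ 2)) :=
          Nat.add_le_add_left (Nat.mul_le_mul_left _ hK) _
      _ = (K + 1) * (n ^ (r + 2) * T) + K * (n ^ (r + 1) * S ^ 2) := by ring
      _ ≤ (K + 1) * (n ^ (r + 2) * T) + (K + 1) * (n ^ (r + 1) * S ^ 2) := by
          refine Nat.add_le_add_left (Nat.mul_le_mul_right _ ?_) _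
          omega
      _ = _ := by ring
  have h4 : A ≤ C * (K + 1) * (n ^ (r + 2) * T + n ^ (r + 1) * S ^ 2) :=
    h1.trans ((Nat.mul_le_mul_left _ h3).trans (le_of_eq (by ring)))
  rcases Nat.le_total (n ^ (r + 3)) (n ^ (r + 2) * T + n ^ (r + 1) * S ^ 2) with h | h
  · rw [min_eq_left h]
    calc A ≤ 1 * n ^ (r + 3) := by omega
      _ ≤ _ := Nat.mul_le_mul_right _ (by omega)
  · rw [min_eq_right h]
    exact h4.trans (Nat.mul_le_mul_right _ (by omega))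

theorem two_main (r K : ℕ) : ∃ C : ℕ, 0 < C ∧ ∀ (n : ℕ) (ds : List ℕ) (c d : ℕ), ds.length = r →
    (∀ x ∈ ds, 1 ≤ x) → 1 ≤ c → 1 ≤ d →
    ex n (ds ++ [c, d]) ≤
      C * (n ^ (r + 2) * (d - 1) + n ^ (r + 1) * (ds.prod * c * d - 1) ^ 2) ∧
    (r + 3 ≤ n → min (n ^ (r + 3)) (n ^ (r + 2) * (d - 1) + n ^ (r + 1) * (c * d - 1) ^ 2) ≤
      C * ex n (ds ++ [c, d])) ∧
    ((ds.prod * c * d - 1) ^ 2 ≤ K * (n * (d - 1) + (c * d - 1) ^ 2) →
      ex n (ds ++ [c, d]) ≤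
        C * min (n ^ (r + 3)) (n ^ (r + 2) * (d - 1) + n ^ (r + 1) * (c * d - 1) ^ 2)) := by
  refine ⟨C3 (r + 2) + 2 * C1 (r + 3) + (C3 (r + 2) * (K + 1) + 1), by omega, ?_⟩
  rintro n ds c d rfl hds hc hd
  refine ⟨?_, ?_, ?_⟩
  · exact (two_upper n ds c d hds hc hd).trans (Nat.mul_le_mul_right _ (by omega))
  · intro hn
    exact (last_two_le n ds c d hds hc hd hn).trans (Nat.mul_le_mul_right _ (by omega))
  · intro hK
    have h := two_dom (two_upper n ds c d hds hc hd)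
      (by simpa using ex_le_pow n (ds ++ [c, d])) hK
    exact h.trans (Nat.mul_le_mul_right _ (by omega))

end Pool.Agent.H21.GS
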