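import Pool.Agent.H21.GS.Order

/-!
# The bound in terms of the last entries
-/

set_option autoImplicit false
set_option linter.unusedSectionVars false

namespace Pool.Agent.H21.GS

open Finset Pool.Agent.H21.Star

theorem prod_le_of_sublist {L1 L2 : List ℕ} (h : L1.Sublist L2) (h2 : ∀ a ∈ L2, 1 ≤ a) :
    L1.prod ≤ L2.prod := by
  induction h with
  | slnil => exact le_rfl
  | cons a h ih =>
    rw [List.prod_cons]
    have h3 := ih fun b hb => h2 b (List.mem_cons_of_mem _ hb)
    have h4 := h2 a List.mem_cons_self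
    calc _ ≤ _ := h3
      _ ≤ _ := Nat.le_mul_of_pos_left _ h4
  | cons_cons a h ih =>
    rw [List.prod_cons, List.prod_cons]
    exact Nat.mul_le_mul_left _ (ih fun b hb => h2 b (List.mem_cons_of_mem _ hb))

theorem win_le_drop {ds : List ℕ} (hds : ∀ d ∈ ds, 1 ≤ d) {a j l : ℕ} (h : a ≤ j) :
    win ds j l ≤ (ds.drop a).prod := by
  refine prod_le_of_sublist ?_ fun d hd => hds d (List.mem_of_mem_drop hd)
  refine (List.take_sublist _ _).trans ?_
  obtain ⟨b, rfl⟩ : ∃ b, j = a + b := ⟨j - a, by omega⟩
  rw [← List.drop_drop]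
  exact List.drop_sublist _ _

theorem win_le_take {ds : List ℕ} (hds : ∀ d ∈ ds, 1 ≤ d) {a j l : ℕ} (h : l ≤ a) :
    win ds j l ≤ (ds.take a).prod := by
  refine prod_le_of_sublist ?_ fun d hd => hds d (List.mem_of_mem_take hd)
  have h1 : (ds.drop j).take (l - j) = (ds.take l).drop j := by
    rw [List.drop_take]
  rw [h1]
  refine (List.drop_sublist _ _).trans ?_
  have h2 : ds.take l = (ds.take a).take l := by
    rw [List.take_take, min_eq_left h]
  rw [h2]
  exact List.take_sublist _ _

variable {V : Type*} [DecidableEq V] {m : ℕ}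

/-- Counting the tuples whose last `i` positions are covered one after the other. -/
theorem count_last [Fintype V] (X : Finset (Fin (m + 1) → V)) (σ : Fin (m + 1) → Fin (m + 1))
    (hσ : Function.Bijective σ) (i : ℕ) (hi : i ≤ m + 1)
    (G : ℕ → (Fin (m + 1) → V) → Finset V) (A : ℕ)
    (hG : ∀ k x y, (∀ p ∈ pre σ k, x p = y p) → G k x = G k y)
    (hc : ∀ k x, (G k x).card ≤ A)
    (hX : ∀ x ∈ X, ∀ k : Fin (m + 1), m + 1 - i ≤ (k : ℕ) → x (σ k) ∈ G k x) :
    X.card ≤ Fintype.card V ^ (m + 1 - i) * A ^ i := by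
  classical
  refine (count X σ hσ (fun k x => if m + 1 - i ≤ (k : ℕ) then G k x else univ)
    (fun k => if m + 1 - i ≤ (k : ℕ) then A else Fintype.card V) ?_ ?_ ?_).trans ?_
  · intro k x y hxy
    by_cases hk : m + 1 - i ≤ (k : ℕ)
    · simp only [if_pos hk]
      refine hG k x y fun p hp => ?_
      obtain ⟨a, ha, rfl⟩ := mem_image.1 hp
      exact hxy a (mem_filter.1 ha).2
    · simp only [if_neg hk]
  · intro k x
    by_cases hk : m + 1 - i ≤ (k : ℕ)
    · simp only [if_pos hk]; exact hc _ _
    · simp only [if_neg hk]; exact card_le_univ _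
  · intro x hx k
    by_cases hk : m + 1 - i ≤ (k : ℕ)
    · simp only [if_pos hk]; exact hX x hx k hk
    · simp only [if_neg hk]; exact mem_univ _
  · rw [prod_ite, prod_const, prod_const]
    have e2 : (univ.filter fun k : Fin (m + 1) => ¬ (m + 1 - i ≤ (k : ℕ))).card = m + 1 - i := by
      have h1 : (univ.filter fun k : Fin (m + 1) => ¬ (m + 1 - i ≤ (k : ℕ))) =
          pre id (m + 1 - i) := by
        ext k
        simp [pre]
        omega
      rw [h1]
      exact card_pre Function.bijective_id (Nat.sub_le _ _)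
    have e1 : (univ.filter fun k : Fin (m + 1) => m + 1 - i ≤ (k : ℕ)).card = i := by
      have h1 := card_filter_add_card_filter_not (s := (univ : Finset (Fin (m + 1))))
        (fun k : Fin (m + 1) => m + 1 - i ≤ (k : ℕ))
      rw [e2, card_univ, Fintype.card_fin] at h1
      omega
    rw [e1, e2, mul_comm]

/-- Counting the tuples whose positions `j + 1, …, l` are covered one after the other. -/
theorem count_window [Fintype V] (X : Finset (Fin (m + 1) → V)) (σ : Fin (m + 1) → Fin (m + 1))
    (hσ : Function.Bijective σ) (j l : Fin (m + 1)) (hjl : j < l)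
    (G : ℕ → (Fin (m + 1) → V) → Finset V) (A : ℕ)
    (hG : ∀ k x y, (∀ p ∈ pre σ k, x p = y p) → G k x = G k y)
    (hc : ∀ k x, (G k x).card ≤ A)
    (hX : ∀ x ∈ X, ∀ k : Fin (m + 1), j < k → k ≤ l → x (σ k) ∈ G k x) :
    X.card ≤ Fintype.card V ^ (m + 1 - (l - j)) * A ^ ((l : ℕ) - j) := by
  classical
  refine (count X σ hσ (fun k x => if j < k ∧ k ≤ l then G k x else univ)
    (fun k => if j < k ∧ k ≤ l then A else Fintype.card V) ?_ ?_ ?_).trans ?_
  · intro k x y hxy
    by_cases hk : j < k ∧ k ≤ l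
    · simp only [if_pos hk]
      refine hG k x y fun p hp => ?_
      obtain ⟨a, ha, rfl⟩ := mem_image.1 hp
      exact hxy a (mem_filter.1 ha).2
    · simp only [if_neg hk]
  · intro k x
    by_cases hk : j < k ∧ k ≤ l
    · simp only [if_pos hk]; exact hc _ _
    · simp only [if_neg hk]; exact card_le_univ _
  · intro x hx k
    by_cases hk : j < k ∧ k ≤ l
    · simp only [if_pos hk]; exact hX x hx k hk.1 hk.2
    · simp only [if_neg hk]; exact mem_univ _
  · rw [prod_ite, prod_const, prod_const]
    have e1 : (univ.filter fun k : Fin (m + 1) => j < k ∧ k ≤ l) = Ioc j l := by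
      ext k; simp
    have e2 : (univ.filter fun k : Fin (m + 1) => j < k ∧ k ≤ l).card = l - j := by
      rw [e1, Fin.card_Ioc]
    have e3 : (univ.filter fun k : Fin (m + 1) => ¬ (j < k ∧ k ≤ l)).card = m + 1 - (l - j) := by
      rw [filter_not, card_sdiff_of_subset (filter_subset _ _), e2, Finset.card_univ,
        Fintype.card_fin]
    rw [e2, e3, mul_comm]

theorem win_take {ds : List ℕ} {a j l : ℕ} (h : l ≤ a) : win (ds.take a) j l = win ds j l := by
  unfold win
  rw [List.drop_take, List.take_take, min_eq_left (by omega)]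

/-- The thresholds. -/
def thr (ds : List ℕ) (t i : ℕ) : ℕ := if i < t then (ds.drop (ds.length - i)).prod else ds.prod

/-- The blocked systems of tuples: the bound by the last entries. -/
theorem last_tuples [Fintype V] {ds : List ℕ} (hlen : ds.length = m)
    (hds : ∀ d ∈ ds, 1 ≤ d) (t : ℕ) (ht : 1 ≤ t) (htm : t ≤ m)
    (hch : ∀ U : ℕ → Finset (Fin (m + 1)) → Prop, Nested t U → HasChain t U)
    (X : Finset (Fin (m + 1) → V))
    (h : ∀ (π : Equiv.Perm (Fin (m + 1))) (v : V), ¬ ∃ T, OStar ds v T ∧
      ∀ p ∈ T, ∃ x ∈ X, (List.ofFn fun i => x (π i)) = p) :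
    X.card ≤ K0 m * (K0 m ^ (m + 1) *
        (Fintype.card V ^ t * upperSum (Fintype.card V) (ds.take (m - t)))) +
      ∑ i ∈ range t, K0 m * (Fintype.card V ^ (m - i) * (K0 m * (thr ds t (i + 1) - 1)) ^ (i + 1)) := by
  classical
  choose E hE1 hE2 using fun π v => pack ds hds
    (fun p => ∃ x ∈ X, (List.ofFn fun i => x (π i)) = p) v (h π v)
  have hE1' : ∀ π v p l, p.length < l → l ≤ ds.length → (E π v p l).card < win ds p.length l :=
    fun π v p l h1 h2 => hE1 π v p l h1 h2
  set X0 : Equiv.Perm (Fin (m + 1)) × Fin (m + 1) × Fin (m + 1) → Finset (Fin (m + 1) → V) :=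
    fun s => X.filter fun x => s.2.1 < s.2.2 ∧ (s.2.2 : ℕ) ≤ m - t ∧
      ∀ k : Fin (m + 1), s.2.1 < k → k ≤ s.2.2 →
        x (s.1 k) ∈ cover ds E (pre s.1 k) x (win ds s.2.1 s.2.2) with hX0
  set X1 : ℕ → Equiv.Perm (Fin (m + 1)) → Finset (Fin (m + 1) → V) := fun i π =>
    X.filter fun x => ∀ k : Fin (m + 1), m + 1 - (i + 1) ≤ (k : ℕ) →
      x (π k) ∈ cover ds E (pre π k) x (thr ds t (i + 1)) with hX1
  have hcov : X ⊆ univ.biUnion X0 ∪ (range t).biUnion fun i => univ.biUnion (X1 i) := by
    intro x hx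
    set U : ℕ → Finset (Fin (m + 1)) → Prop := fun i R =>
      ∀ p ∈ R, x p ∉ cover ds E (univ \ R) x (thr ds t i) with hU
    by_cases hmem : ∀ i, 1 ≤ i → i ≤ t → ∀ I : Finset (Fin (m + 1)), I.card = i →
        ∃ R ⊆ I, R.Nonempty ∧ U i R
    · have hnest : Nested t U := by
        refine ⟨fun i A B hA hB p hp hcp => ?_, hmem⟩
        rcases mem_union.1 hp with hp | hp
        · exact hA p hp (cover_mono (sdiff_subset_sdiff (Subset.refl _) subset_union_left) le_rfl hcp)
        · exact hB p hp (cover_mono (sdiff_subset_sdiff (Subset.refl _) subset_union_right) le_rfl hcp)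
      have hex : ∀ (S : Finset (Fin (m + 1))) (p : Fin (m + 1)),
          ∃ W, x p ∈ cover ds E S x W ∨ ds.prod + 1 ≤ W := fun S p => ⟨_, Or.inr le_rfl⟩
      obtain ⟨σ, hσ, hord, hgr⟩ := order_of_chain ht (hch U hnest)
        (fun S p => Nat.find (hex S p)) (ds.prod + 1) (fun S p => Nat.find_le (Or.inr le_rfl))
      set π : Equiv.Perm (Fin (m + 1)) := Equiv.ofBijective σ hσ with hπ
      have hπσ : ∀ i, π i = σ i := fun i => rfl
      obtain ⟨j, l, hjl, hl0, hl, hmem⟩ := hE2 π (x (π 0)) (List.ofFn fun i : Fin m => x (π i.succ))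
        (by simp [hlen]) ⟨x, hx, by rw [List.ofFn_succ]⟩
      have hlm : l < m + 1 := by omega
      have hjm : j < m + 1 := by omega
      have hxl : (List.ofFn fun i : Fin m => x (π i.succ))[l - 1] = x (σ ⟨l, hlm⟩) := by
        rw [List.getElem_ofFn, hπσ]
        congr 2
        rw [Fin.ext_iff]
        simp only [Fin.val_succ]
        omega
      rw [hxl] at hmem
      have c1 : ∀ S, pre σ (j + 1) ⊆ S → x (σ ⟨l, hlm⟩) ∈ cover ds E S x (win ds j l) := by
        intro S hS
        unfold cover
        refine mem_biUnion.2 ⟨(π, ⟨j, hjm⟩, ⟨l, hlm⟩), mem_univ _, ?_⟩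
        rw [if_pos]
        · exact hmem
        · refine ⟨hjl, le_rfl, fun a ha => ?_⟩
          have ha' : (a : ℕ) ≤ j := ha
          exact hS (mem_image.2 ⟨a, mem_filter.2 ⟨mem_univ _, by omega⟩, rfl⟩)
      rcases Nat.lt_or_ge (m - t) l with hlt | hlt
      · -- the target is one of the last positions
        exfalso
        -- the number of positions after the beginning
        obtain ⟨i, hi1, hit, hij, hil, hthr⟩ : ∃ i, 1 ≤ i ∧ i ≤ t ∧ j + 1 ≤ m + 1 - i ∧
            m + 1 - i ≤ l ∧ win ds j l ≤ thr ds t i := by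
          rcases Nat.lt_or_ge (m - j) t with h1 | h1
          · refine ⟨m - j, by omega, by omega, by omega, by omega, ?_⟩
            unfold thr
            rw [if_pos h1]
            exact win_le_drop hds (by omega)
          · refine ⟨t, ht, le_rfl, by omega, by omega, ?_⟩
            unfold thr
            rw [if_neg (lt_irrefl _)]
            exact win_le hds _ _
        refine hord i hi1 hit (σ ⟨l, hlm⟩) ?_ ?_
        · rw [mem_sdiff]
          refine ⟨mem_univ _, fun h1 => ?_⟩
          obtain ⟨a, ha, h2⟩ := mem_image.1 h1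
          have h3 := hσ.1 h2
          subst h3
          have h4 := (mem_filter.1 ha).2
          simp only at h4
          omega
        · refine cover_mono (Subset.refl _) hthr (c1 _ ?_)
          rw [Finset.sdiff_sdiff_eq_self (subset_univ _)]
          intro y hy
          obtain ⟨a, ha, rfl⟩ := mem_image.1 hy
          have ha' := (mem_filter.1 ha).2
          exact mem_image.2 ⟨a, mem_filter.2 ⟨mem_univ _, by omega⟩, rfl⟩
      · -- the target is one of the first positions
        refine mem_union_left _ (mem_biUnion.2 ⟨(π, ⟨j, hjm⟩, ⟨l, hlm⟩), mem_univ _,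
          mem_filter.2 ⟨hx, hjl, hlt, fun k hk1 hk2 => ?_⟩⟩)
        simp only at hk1 hk2 ⊢
        have hk1' : j < (k : ℕ) := hk1
        have hpre : pre (⇑π) (k : ℕ) = pre σ k := rfl
        rw [hpre, hπσ]
        have c3 : x (σ ⟨l, hlm⟩) ∈ cover ds E (pre σ k) x (win ds j l) := by
          refine c1 _ ?_
          intro y hy
          obtain ⟨a, ha, rfl⟩ := mem_image.1 hy
          have ha' := (mem_filter.1 ha).2
          exact mem_image.2 ⟨a, mem_filter.2 ⟨mem_univ _, by omega⟩, rfl⟩
        have c2 : Nat.find (hex (pre σ k) (σ ⟨l, hlm⟩)) ≤ win ds j l := Nat.find_le (Or.inl c3)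
        have c4 := (hgr k ⟨l, hlm⟩ hk2 (by simp only; omega)).trans c2
        have c5 := Nat.find_spec (hex (pre σ k) (σ k))
        rcases c5 with c5 | c5
        · exact cover_mono (Subset.refl _) c4 c5
        · have := win_le hds j l
          omega
    · push Not at hmem
      obtain ⟨i, hi1, hit, I, hI, hno⟩ := hmem
      obtain ⟨i, rfl⟩ : ∃ i', i = i' + 1 := ⟨i - 1, by omega⟩
      refine mem_union_right _ (mem_biUnion.2 ⟨i, mem_range.2 (by omega), ?_⟩)
      obtain ⟨σ, hσ, hgr⟩ := greedy (fun S p => if p ∉ I then 0 else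
        if x p ∈ cover ds E S x (thr ds t (i + 1)) then 1 else 2)
      refine mem_biUnion.2 ⟨Equiv.ofBijective σ hσ, mem_univ _, mem_filter.2 ⟨hx, fun k hk => ?_⟩⟩
      have hpre : pre (⇑(Equiv.ofBijective σ hσ)) (k : ℕ) = pre σ k := rfl
      rw [hpre]
      change x (σ k) ∈ _
      -- the positions outside of `I` come first
      have hout : univ \ pre σ k ⊆ I := by
        intro p hp
        by_contra hpI
        obtain ⟨a, rfl⟩ := hσ.2 p
        have hka : k ≤ a := by
          by_contra hka
          push Not at hka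
          exact (mem_sdiff.1 hp).2 (mem_image.2 ⟨a, mem_filter.2 ⟨mem_univ _, hka⟩, rfl⟩)
        have h1 : ∀ b ≤ k, σ b ∉ I := by
          intro b hb hbI
          have h2 := hgr b a (hb.trans hka)
          rw [if_neg (not_not.2 hbI), if_pos hpI] at h2
          split at h2 <;> omega
        have h2 : (Iic k).image σ ⊆ univ \ I := by
          intro q hq
          obtain ⟨b, hb, rfl⟩ := mem_image.1 hq
          exact mem_sdiff.2 ⟨mem_univ _, h1 b (mem_Iic.1 hb)⟩
        have h3 := card_le_card h2
        rw [card_image_of_injective _ hσ.1, Fin.card_Iic, card_sdiff_of_subset (subset_univ _),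
          card_univ, Fintype.card_fin, hI] at h3
        omega
      have hne : (univ \ pre σ (k : ℕ)).Nonempty := by
        refine ⟨σ k, mem_sdiff.2 ⟨mem_univ _, fun h1 => ?_⟩⟩
        obtain ⟨a, ha, h2⟩ := mem_image.1 h1
        have h3 := hσ.1 h2
        subst h3
        exact lt_irrefl _ (mem_filter.1 ha).2
      have h1 := hno _ hout hne
      rw [hU] at h1
      simp only [not_forall, not_not] at h1
      obtain ⟨p, hp, hpc⟩ := h1
      rw [Finset.sdiff_sdiff_eq_self (subset_univ _)] at hpc
      obtain ⟨a, rfl⟩ := hσ.2 p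
      have hka : k ≤ a := by
        by_contra hka
        push Not at hka
        exact (mem_sdiff.1 hp).2 (mem_image.2 ⟨a, mem_filter.2 ⟨mem_univ _, hka⟩, rfl⟩)
      have h2 := hgr k a hka
      have h3 : σ k ∈ I := hout (mem_sdiff.2 ⟨mem_univ _, fun h1 => by
        obtain ⟨b, hb, h4⟩ := mem_image.1 h1
        have h5 := hσ.1 h4
        subst h5
        exact lt_irrefl _ (mem_filter.1 hb).2⟩)
      rw [if_neg (not_not.2 h3), if_neg (not_not.2 (hout hp)), if_pos hpc] at h2
      by_contra h4
      rw [if_neg h4] at h2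
      omega
  have c0 : ∀ s, (X0 s).card ≤ K0 m ^ (m + 1) *
      (Fintype.card V ^ t * upperSum (Fintype.card V) (ds.take (m - t))) := by
    rintro ⟨π, j, l⟩
    by_cases hjl : j < l ∧ (l : ℕ) ≤ m - t
    · obtain ⟨hjl, hlt⟩ := hjl
      have hjl' : (j : ℕ) < l := hjl
      have h1 := count_window (X0 (π, j, l)) π π.bijective j l hjl
        (fun k x => cover ds E (pre π k) x (win ds j l)) (K0 m * (win ds j l - 1))
        (fun k x y hxy => cover_congr hxy _) (fun k x => card_cover hlen hE1' _ _ _)
        (fun x hx k hk1 hk2 => (mem_filter.1 hx).2.2.2 k hk1 hk2)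
      have hlt' : (ds.take (m - t)).length = m - t := by
        rw [List.length_take, hlen]
        omega
      have h2 := term_le (Fintype.card V) (ds := ds.take (m - t)) hjl' (by rw [hlt']; exact hlt)
      rw [hlt', win_take hlt] at h2
      have e : m + 1 - ((l : ℕ) - j) = t + (m - t + 1 - (l - j)) := by omega
      refine h1.trans ?_
      rw [e, pow_add, mul_pow]
      calc Fintype.card V ^ t * Fintype.card V ^ (m - t + 1 - ((l : ℕ) - j)) *
            (K0 m ^ ((l : ℕ) - j) * (win ds j l - 1) ^ ((l : ℕ) - j))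
          = K0 m ^ ((l : ℕ) - j) * (Fintype.card V ^ t *
            (Fintype.card V ^ (m - t + 1 - ((l : ℕ) - j)) * (win ds j l - 1) ^ ((l : ℕ) - j))) := by
              ring
        _ ≤ _ := Nat.mul_le_mul (Nat.pow_le_pow_right (K0_pos m) (by omega))
              (Nat.mul_le_mul_left _ h2)
    · have : X0 (π, j, l) = ∅ := filter_eq_empty_iff.2 fun x _ hh => hjl ⟨hh.1, hh.2.1⟩
      rw [this]
      simp
  have c1 : ∀ i ∈ range t, (univ.biUnion (X1 i)).card ≤
      K0 m * (Fintype.card V ^ (m - i) * (K0 m * (thr ds t (i + 1) - 1)) ^ (i + 1)) := by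
    intro i hi
    have hit := mem_range.1 hi
    refine (card_biUnion_le_card_mul _ _
      (Fintype.card V ^ (m - i) * (K0 m * (thr ds t (i + 1) - 1)) ^ (i + 1)) fun π _ => ?_).trans ?_
    · have := count_last (X1 i π) π π.bijective (i + 1) (by omega)
        (fun k x => cover ds E (pre π k) x (thr ds t (i + 1))) (K0 m * (thr ds t (i + 1) - 1))
        (fun k x y hxy => cover_congr hxy _) (fun k x => card_cover hlen hE1' _ _ _)
        (fun x hx k hk => (mem_filter.1 hx).2 k hk)
      have e : m + 1 - (i + 1) = m - i := by omega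
      rwa [e] at this
    · refine Nat.mul_le_mul_right _ ?_
      rw [card_univ]
      exact Fintype.card_le_of_injective (fun π : Equiv.Perm (Fin (m + 1)) =>
        ((π, 0, 0) : Equiv.Perm (Fin (m + 1)) × Fin (m + 1) × Fin (m + 1)))
        (fun a b hab => (Prod.ext_iff.1 hab).1)
  refine (card_le_card hcov).trans ((card_union_le _ _).trans (Nat.add_le_add ?_ ?_))
  · refine (card_biUnion_le_card_mul _ _ _ fun p _ => c0 p).trans ?_
    rw [Finset.card_univ, ← K0]
  · exact card_biUnion_le.trans (sum_le_sum c1)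

end Pool.Agent.H21.GS
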