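import Mathlib

/-!
# The sum over the last entries
-/

set_option autoImplicit false

namespace Pool.Agent.H21.GS

open Finset

/-- The product of the last `i` entries of `ds`. -/
def lastProd (ds : List ℕ) (i : ℕ) : ℕ := (ds.drop (ds.length - i)).prod

/-- The sum over `i = 1, …, t` of `n ^ (r - i) * (P_i - 1) ^ i`, where `t` is the length of `ds` and `P_i` is
the product of the last `i` entries of `ds`. -/
def lastSum (n r : ℕ) (ds : List ℕ) : ℕ :=
  ∑ i ∈ range ds.length, n ^ (r - (i + 1)) * (lastProd ds (i + 1) - 1) ^ (i + 1)

end Pool.Agent.H21.GS
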