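import Pool.Agent.H21.GS.Last
import Pool.Agent.H21.GS.LastSum

/-!
# The order of magnitude for the last entries
-/

set_option autoImplicit false
set_option linter.unusedSectionVars false

namespace Pool.Agent.H21.GS

open Finset Pool.Agent.H21.Star

theorem drop_last (ls ds : List ℕ) {i : ℕ} (hi : i ≤ ds.length) :
    ((ls ++ ds).drop ((ls ++ ds).length - i)).prod = lastProd ds i := by
  have h1 : (ls ++ ds).length - i = ls.length + (ds.length - i) := by
    rw [List.length_append]
    omega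
  rw [h1, ← List.drop_drop, List.drop_left]
  rfl

theorem all_pos {ls ds : List ℕ} (hls : ∀ x ∈ ls, 1 ≤ x) (hds : ∀ x ∈ ds, 1 ≤ x) :
    ∀ x ∈ ls ++ ds, 1 ≤ x := by
  intro x hx
  rcases List.mem_append.1 hx with hx | hx
  · exact hls x hx
  · exact hds x hx

/-- The lower bound. -/
theorem last_lower (n r : ℕ) {ls ds : List ℕ} (hls : ∀ x ∈ ls, 1 ≤ x) (hds : ∀ x ∈ ds, 1 ≤ x)
    (hr : ls.length + ds.length + 1 = r) (hn : r ≤ n) :
    min (n ^ r) (lastSum n r ds) ≤ ds.length * C1 r * ex n (ls ++ ds) := by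
  unfold lastSum
  refine (min_sum_le _ _ _).trans ?_
  have hlen : (ls ++ ds).length + 1 = r := by rw [List.length_append]; exact hr
  calc ∑ i ∈ range ds.length, min (n ^ r) (n ^ (r - (i + 1)) * (lastProd ds (i + 1) - 1) ^ (i + 1))
      ≤ ∑ _i ∈ range ds.length, C1 r * ex n (ls ++ ds) := by
        refine sum_le_sum fun i hi => ?_
        have hi' := mem_range.1 hi
        have h1 := term_lower (n := n) (all_pos hls hds) (j := (ls ++ ds).length - (i + 1))
          (by rw [List.length_append]; omega) (by omega)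
        rw [drop_last ls ds (by omega), hlen] at h1
        have e1 : (ls ++ ds).length - (i + 1) + 1 = r - (i + 1) := by
          rw [List.length_append]
          omega
        have e2 : (ls ++ ds).length - ((ls ++ ds).length - (i + 1)) = i + 1 := by
          rw [List.length_append]
          omega
        rwa [e1, e2] at h1
    _ = _ := by rw [sum_const, card_range, smul_eq_mul, mul_assoc]

/-- The constant of the upper bound. -/
def C4 (m : ℕ) : ℕ := (m + 1) ^ (m + 1) * (K0 m * K0 m ^ (m + 1))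

theorem last_sum_le (n m t : ℕ) (ls ds : List ℕ) (ht : ds.length = t) (h1 : 1 ≤ t)
    (hm : (ls ++ ds).length = m) :
    ∑ i ∈ range t, K0 m * (n ^ (m - i) * (K0 m * (thr (ls ++ ds) t (i + 1) - 1)) ^ (i + 1)) ≤
      K0 m * K0 m ^ (m + 1) * (lastSum n (m + 1) ds + n ^ (m + 1 - t) * ((ls ++ ds).prod - 1) ^ t) := by
  have htm : t ≤ m := by
    rw [← hm, List.length_append]
    omega
  have hterm : ∀ i ∈ range t, K0 m * (n ^ (m - i) * (K0 m * (thr (ls ++ ds) t (i + 1) - 1)) ^ (i + 1)) ≤
      K0 m * K0 m ^ (m + 1) * (n ^ (m + 1 - (i + 1)) * (lastProd ds (i + 1) - 1) ^ (i + 1) +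
        if i + 1 = t then n ^ (m + 1 - t) * ((ls ++ ds).prod - 1) ^ t else 0) := by
    intro i hi
    have hi' := mem_range.1 hi
    have e : m + 1 - (i + 1) = m - i := by omega
    have h2 : K0 m ^ (i + 1) ≤ K0 m ^ (m + 1) := Nat.pow_le_pow_right (K0_pos m) (by omega)
    have h3 : n ^ (m - i) * (thr (ls ++ ds) t (i + 1) - 1) ^ (i + 1) ≤
        n ^ (m + 1 - (i + 1)) * (lastProd ds (i + 1) - 1) ^ (i + 1) +
          if i + 1 = t then n ^ (m + 1 - t) * ((ls ++ ds).prod - 1) ^ t else 0 := by
      unfold thr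
      by_cases h4 : i + 1 < t
      · rw [if_pos h4, drop_last ls ds (by omega), e]
        exact Nat.le_add_right _ _
      · have h5 : i + 1 = t := by omega
        rw [if_neg h4, if_pos h5, ← h5, e]
        exact Nat.le_add_left _ _
    calc K0 m * (n ^ (m - i) * (K0 m * (thr (ls ++ ds) t (i + 1) - 1)) ^ (i + 1))
        = K0 m * K0 m ^ (i + 1) * (n ^ (m - i) * (thr (ls ++ ds) t (i + 1) - 1) ^ (i + 1)) := by
          rw [mul_pow]; ring
      _ ≤ _ := Nat.mul_le_mul (Nat.mul_le_mul_left _ h2) h3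
  refine (sum_le_sum hterm).trans ?_
  rw [← mul_sum, sum_add_distrib]
  refine Nat.mul_le_mul_left _ (Nat.add_le_add ?_ ?_)
  · unfold lastSum
    rw [ht]
  · have h6 : ∀ i ∈ range t, (if i + 1 = t then n ^ (m + 1 - t) * ((ls ++ ds).prod - 1) ^ t else 0) =
        if i = t - 1 then n ^ (m + 1 - t) * ((ls ++ ds).prod - 1) ^ t else 0 := by
      intro i _
      by_cases h7 : i + 1 = t
      · rw [if_pos h7, if_pos (by omega)]
      · rw [if_neg h7, if_neg (by omega)]
    rw [sum_congr rfl h6, sum_ite_eq']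
    split
    · exact le_rfl
    · exact Nat.zero_le _

/-- The upper bound. -/
theorem last_upper (n m t : ℕ) {ls ds : List ℕ} (hls : ∀ x ∈ ls, 1 ≤ x) (hds : ∀ x ∈ ds, 1 ≤ x)
    (ht : ds.length = t) (h1 : 1 ≤ t) (hm : (ls ++ ds).length = m)
    (hch : ∀ U : ℕ → Finset (Fin (m + 1)) → Prop, Nested t U → HasChain t U) :
    ex n (ls ++ ds) ≤ C4 m * (lastSum n (m + 1) ds + n ^ (m + 1 - t) * ((ls ++ ds).prod - 1) ^ t +
      n ^ t * upperSum n ls) := by
  refine ex_le fun F hF hS => ?_
  obtain ⟨χ, hχ⟩ := exists_colouring (r := (ls ++ ds).length + 1) (Nat.succ_pos _) F hF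
  have h2 := no_ostar hS χ
  subst hm
  have htm : t ≤ (ls ++ ds).length := by
    rw [List.length_append]
    omega
  have h3 := last_tuples (m := (ls ++ ds).length) rfl (all_pos hls hds) t h1 htm hch (tuples F χ) h2
  rw [Fintype.card_fin] at h3
  have h4 : (ls ++ ds).take ((ls ++ ds).length - t) = ls := by
    rw [List.length_append, ht, Nat.add_sub_cancel, List.take_left]
  rw [h4] at h3
  have h5 := last_sum_le n (ls ++ ds).length t ls ds ht h1 rfl
  refine hχ.trans ?_
  calc _ ≤ ((ls ++ ds).length + 1) ^ ((ls ++ ds).length + 1) *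
        (K0 (ls ++ ds).length * (K0 (ls ++ ds).length ^ ((ls ++ ds).length + 1) *
          (n ^ t * upperSum n ls)) + K0 (ls ++ ds).length * K0 (ls ++ ds).length ^ ((ls ++ ds).length + 1) *
          (lastSum n ((ls ++ ds).length + 1) ds +
            n ^ ((ls ++ ds).length + 1 - t) * ((ls ++ ds).prod - 1) ^ t)) :=
        Nat.mul_le_mul_left _ (h3.trans (Nat.add_le_add_left h5 _))
    _ = _ := by unfold C4; ring

end Pool.Agent.H21.GS
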