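import Pool.Agent.H21.GS.Last2

/-!
# Leading entries with bounded product
-/

set_option autoImplicit false
set_option linter.unusedSectionVars false

namespace Pool.Agent.H21.GS

open Finset Pool.Agent.H21.Star

theorem upperSum_one (n : ℕ) {ls : List ℕ} (h : ∀ x ∈ ls, x = 1) : upperSum n ls = 0 := by
  unfold upperSum
  refine sum_eq_zero fun j _ => sum_eq_zero fun k _ => ?_
  have h1 : ((ls.drop j).take (k + 1)).prod = 1 :=
    List.prod_eq_one fun x hx => h x (List.mem_of_mem_drop (List.mem_of_mem_take hx))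
  rw [h1, Nat.sub_self, zero_pow (Nat.succ_ne_zero k), mul_zero]

theorem upperSum_bdd {n K : ℕ} (hn : 1 ≤ n) {ls : List ℕ} (hls : ∀ x ∈ ls, 1 ≤ x) (hK : ls.prod ≤ K) :
    upperSum n ls ≤ ls.length * (ls.length * (K ^ ls.length * n ^ ls.length)) := by
  have hK1 : 1 ≤ K := le_trans (List.prod_pos hls) hK
  unfold upperSum
  calc ∑ j ∈ range ls.length, ∑ k ∈ range (ls.length - j),
        n ^ (ls.length - k) * (((ls.drop j).take (k + 1)).prod - 1) ^ (k + 1)
      ≤ ∑ _j ∈ range ls.length, ls.length * (K ^ ls.length * n ^ ls.length) := by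
        refine sum_le_sum fun j hj => ?_
        calc ∑ k ∈ range (ls.length - j),
              n ^ (ls.length - k) * (((ls.drop j).take (k + 1)).prod - 1) ^ (k + 1)
            ≤ ∑ _k ∈ range (ls.length - j), K ^ ls.length * n ^ ls.length := by
              refine sum_le_sum fun k hk => ?_
              have hk' := mem_range.1 hk
              have h1 : ((ls.drop j).take (k + 1)).prod ≤ ls.prod :=
                prod_le_of_sublist ((List.take_sublist _ _).trans (List.drop_sublist _ _)) hls
              have h2 : (((ls.drop j).take (k + 1)).prod - 1) ^ (k + 1) ≤ K ^ ls.length :=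
                (Nat.pow_le_pow_left (by omega) _).trans (Nat.pow_le_pow_right hK1 (by omega))
              have h3 : n ^ (ls.length - k) ≤ n ^ ls.length := Nat.pow_le_pow_right hn (Nat.sub_le _ _)
              rw [mul_comm]
              exact Nat.mul_le_mul h2 h3
          _ ≤ _ := by
              rw [sum_const, card_range, smul_eq_mul]
              exact Nat.mul_le_mul_right _ (Nat.sub_le _ _)
    _ = _ := by rw [sum_const, card_range, smul_eq_mul]

theorem last_main (t r K : ℕ) (ht : 1 ≤ t)
    (hch : ∀ U : ℕ → Finset (Fin r) → Prop, Nested t U → HasChain t U) :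
    ∃ C : ℕ, 0 < C ∧ ∀ (n : ℕ) (ls ds : List ℕ), ds.length = t → ls.length + t + 1 = r →
      (∀ x ∈ ls ++ ds, 1 ≤ x) →
      ex n (ls ++ ds) ≤ C * (lastSum n r ds + n ^ (r - t) * ((ls ++ ds).prod - 1) ^ t +
        n ^ t * upperSum n ls) ∧
      (r ≤ n → min (n ^ r) (lastSum n r ds) ≤ C * ex n (ls ++ ds)) ∧
      (n ^ (r - t) * ((ls ++ ds).prod - 1) ^ t + n ^ t * upperSum n ls ≤ K * lastSum n r ds →
        ex n (ls ++ ds) ≤ C * min (n ^ r) (lastSum n r ds)) := by
  refine ⟨C4 (r - 1) + t * C1 r + (C4 (r - 1) * (K + 1) + 1), by omega, ?_⟩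
  intro n ls ds hds hr hpos
  have hls' : ∀ x ∈ ls, 1 ≤ x := fun x hx => hpos x (List.mem_append_left _ hx)
  have hds' : ∀ x ∈ ds, 1 ≤ x := fun x hx => hpos x (List.mem_append_right _ hx)
  have hm : (ls ++ ds).length = r - 1 := by rw [List.length_append]; omega
  have hr1 : r - 1 + 1 = r := by omega
  have h1 : ex n (ls ++ ds) ≤ C4 (r - 1) * (lastSum n r ds +
      n ^ (r - t) * ((ls ++ ds).prod - 1) ^ t + n ^ t * upperSum n ls) := by
    have := last_upper n (r - 1) t hls' hds' hds ht hm (by rw [hr1]; exact hch)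
    rwa [hr1] at this
  refine ⟨h1.trans (Nat.mul_le_mul_right _ (by omega)), fun hn => ?_, fun hK => ?_⟩
  · have := last_lower n r hls' hds' (by omega) hn
    rw [hds] at this
    exact this.trans (Nat.mul_le_mul_right _ (by omega))
  · have h2 : ex n (ls ++ ds) ≤ C4 (r - 1) * (K + 1) * lastSum n r ds := by
      calc _ ≤ _ := h1
        _ = C4 (r - 1) * (lastSum n r ds + (n ^ (r - t) * ((ls ++ ds).prod - 1) ^ t +
              n ^ t * upperSum n ls)) := by ring
        _ ≤ C4 (r - 1) * (lastSum n r ds + K * lastSum n r ds) :=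
            Nat.mul_le_mul_left _ (Nat.add_le_add_left hK _)
        _ = _ := by ring
    have h3 : ex n (ls ++ ds) ≤ n ^ r := by
      have := ex_le_pow n (ls ++ ds)
      rwa [hm, hr1] at this
    rcases Nat.le_total (n ^ r) (lastSum n r ds) with h | h
    · rw [min_eq_left h]
      calc ex n (ls ++ ds) ≤ 1 * n ^ r := by omega
        _ ≤ _ := Nat.mul_le_mul_right _ (by omega)
    · rw [min_eq_right h]
      exact h2.trans (Nat.mul_le_mul_right _ (by omega))

theorem term_le_lastSum (n r : ℕ) {ds : List ℕ} {i : ℕ} (hi : i < ds.length) :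
    n ^ (r - (i + 1)) * (lastProd ds (i + 1) - 1) ^ (i + 1) ≤ lastSum n r ds := by
  unfold lastSum
  exact single_le_sum (f := fun i => n ^ (r - (i + 1)) * (lastProd ds (i + 1) - 1) ^ (i + 1))
    (fun _ _ => Nat.zero_le _) (mem_range.2 hi)

theorem lastProd_all (ds : List ℕ) : lastProd ds ds.length = ds.prod := by
  unfold lastProd
  simp

/-- The condition for leading entries that are equal to `1`. -/
theorem cond_one (n t r : ℕ) {ls ds : List ℕ} (ht : 1 ≤ t) (hds : ds.length = t)
    (hls : ∀ x ∈ ls, x = 1) :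
    n ^ (r - t) * ((ls ++ ds).prod - 1) ^ t + n ^ t * upperSum n ls ≤ 1 * lastSum n r ds := by
  have h1 : (ls ++ ds).prod = ds.prod := by
    rw [List.prod_append, List.prod_eq_one hls, one_mul]
  have h2 := term_le_lastSum n r (ds := ds) (i := t - 1) (by omega)
  have h3 : t - 1 + 1 = t := by omega
  rw [h3] at h2
  have h4 : lastProd ds t = ds.prod := by rw [← hds]; exact lastProd_all ds
  rw [h4] at h2
  rw [upperSum_one n hls, mul_zero, add_zero, one_mul, h1]
  exact h2

/-- The condition for leading entries with a bounded product. -/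
theorem cond_bdd (n t r K : ℕ) {ls ds : List ℕ} (ht : 1 ≤ t) (hds : ds.length = t)
    (hr : ls.length + t + 1 = r) (hpos : ∀ x ∈ ls ++ ds, 1 ≤ x) (hK : ls.prod ≤ K)
    (h2 : 2 ≤ lastProd ds 1) :
    n ^ (r - t) * ((ls ++ ds).prod - 1) ^ t + n ^ t * upperSum n ls ≤
      ((2 * K) ^ t + r * (r * (K + 1) ^ r)) * lastSum n r ds := by
  have hls' : ∀ x ∈ ls, 1 ≤ x := fun x hx => hpos x (List.mem_append_left _ hx)
  have hds' : ∀ x ∈ ds, 1 ≤ x := fun x hx => hpos x (List.mem_append_right _ hx)
  rw [add_mul]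
  refine Nat.add_le_add ?_ ?_
  · have h3 := term_le_lastSum n r (ds := ds) (i := t - 1) (by omega)
    have h4 : t - 1 + 1 = t := by omega
    rw [h4] at h3
    have h5 : lastProd ds t = ds.prod := by rw [← hds]; exact lastProd_all ds
    rw [h5] at h3
    have h6 : lastProd ds 1 ≤ ds.prod := by
      unfold lastProd
      exact prod_le_of_sublist (List.drop_sublist _ _) hds'
    have h7 : (ls ++ ds).prod - 1 ≤ 2 * K * (ds.prod - 1) := by
      rw [List.prod_append]
      have h8 : ls.prod * ds.prod ≤ K * ds.prod := Nat.mul_le_mul_right _ hK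
      have h9 : K * ds.prod ≤ K * (2 * (ds.prod - 1)) := Nat.mul_le_mul_left _ (by omega)
      calc _ ≤ ls.prod * ds.prod := Nat.sub_le _ _
        _ ≤ _ := h8.trans h9
        _ = _ := by ring
    calc n ^ (r - t) * ((ls ++ ds).prod - 1) ^ t ≤ n ^ (r - t) * (2 * K * (ds.prod - 1)) ^ t :=
          Nat.mul_le_mul_left _ (Nat.pow_le_pow_left h7 _)
      _ = (2 * K) ^ t * (n ^ (r - t) * (ds.prod - 1) ^ t) := by rw [mul_pow]; ring
      _ ≤ _ := Nat.mul_le_mul_left _ h3
  · rcases Nat.eq_zero_or_pos n with rfl | hn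
    · rw [zero_pow (by omega), zero_mul]
      exact Nat.zero_le _
    · have h3 := upperSum_bdd hn hls' hK
      have h4 := term_le_lastSum n r (ds := ds) (i := 0) (by omega)
      rw [zero_add, pow_one] at h4
      have h5 : n ^ (r - 1) ≤ lastSum n r ds := by
        refine le_trans ?_ h4
        exact Nat.le_mul_of_pos_right _ (by omega)
      have h6 : n ^ t * (K ^ ls.length * n ^ ls.length) = K ^ ls.length * n ^ (r - 1) := by
        have : r - 1 = t + ls.length := by omega
        rw [this, pow_add]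
        ring
      have h7 : K ^ ls.length ≤ (K + 1) ^ r :=
        (Nat.pow_le_pow_left (Nat.le_succ _) _).trans (Nat.pow_le_pow_right (Nat.succ_pos _) (by omega))
      calc n ^ t * upperSum n ls ≤ n ^ t * (ls.length * (ls.length * (K ^ ls.length * n ^ ls.length))) :=
            Nat.mul_le_mul_left _ h3
        _ = ls.length * (ls.length * (n ^ t * (K ^ ls.length * n ^ ls.length))) := by ring
        _ = ls.length * (ls.length * (K ^ ls.length * n ^ (r - 1))) := by rw [h6]
        _ ≤ r * (r * ((K + 1) ^ r * lastSum n r ds)) :=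
            Nat.mul_le_mul (by omega) (Nat.mul_le_mul (by omega) (Nat.mul_le_mul h7 h5))
        _ = _ := by ring

end Pool.Agent.H21.GS
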