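import Pool.Agent.H21.GS.Cfg

/-!
# Lower bounds from blown up Reed-Solomon codes
-/

set_option autoImplicit false
set_option linter.unusedSectionVars false

namespace Pool.Agent.H21.GS

open Finset Pool.Agent.H21.Star

variable {q t r w : ℕ}

/-- The value of the polynomial with coefficients `a` at the point `i`. -/
def val (a : Fin t → ZMod q) (i : Fin r) : ZMod q := ∑ s : Fin t, a s * ((i : ℕ) : ZMod q) ^ (s : ℕ)

theorem val_inj [Fact q.Prime] (hr : r ≤ q) {a b : Fin t → ZMod q} (I : Finset (Fin r))
    (hI : t ≤ I.card) (h : ∀ i ∈ I, val a i = val b i) : a = b := by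
  obtain ⟨J, hJ, hJc⟩ := exists_subset_card_eq hI
  have h1 : a - b = 0 := by
    refine Matrix.eq_zero_of_forall_index_sum_mul_pow_eq_zero
      (f := fun j : Fin t => (((J.orderEmbOfFin hJc j : Fin r) : ℕ) : ZMod q)) ?_ ?_
    · intro j j' hjj
      have h2 := congrArg ZMod.val hjj
      have l1 : ((J.orderEmbOfFin hJc j : Fin r) : ℕ) < q := lt_of_lt_of_le (Fin.is_lt _) hr
      have l2 : ((J.orderEmbOfFin hJc j' : Fin r) : ℕ) < q := lt_of_lt_of_le (Fin.is_lt _) hr
      simp only [ZMod.val_natCast, Nat.mod_eq_of_lt l1, Nat.mod_eq_of_lt l2] at h2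
      exact (J.orderEmbOfFin hJc).injective (Fin.ext h2)
    · intro j
      have h2 := h _ (hJ (J.orderEmbOfFin_mem hJc j))
      simp only [val] at h2
      simp only [Pi.sub_apply, sub_mul, sum_sub_distrib, h2, sub_self]
  exact sub_eq_zero.1 h1

/-- The edge of the code word of `a` and the choices `y`. -/
def edge (a : Fin t → ZMod q) (y : Fin r → Fin w) : Finset (Fin r × ZMod q × Fin w) :=
  univ.image fun i => (i, val a i, y i)

theorem mem_edge {a : Fin t → ZMod q} {y : Fin r → Fin w} {x : Fin r × ZMod q × Fin w} :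
    x ∈ edge a y ↔ x = (x.1, val a x.1, y x.1) := by
  simp only [edge, mem_image, mem_univ, true_and]
  constructor
  · rintro ⟨i, rfl⟩; rfl
  · intro h; exact ⟨x.1, h.symm⟩

theorem card_edge (a : Fin t → ZMod q) (y : Fin r → Fin w) : (edge a y).card = r := by
  unfold edge
  rw [card_image_of_injective, Finset.card_univ, Fintype.card_fin]
  intro i j h
  exact (Prod.ext_iff.1 h).1

theorem edge_inj [Fact q.Prime] (hr : r ≤ q) (ht : t ≤ r) :
    Function.Injective fun p : (Fin t → ZMod q) × (Fin r → Fin w) => edge p.1 p.2 := by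
  rintro ⟨a, y⟩ ⟨b, z⟩ h
  simp only at h
  have key : ∀ i, val a i = val b i ∧ y i = z i := by
    intro i
    have : (i, val a i, y i) ∈ edge b z := by rw [← h]; exact mem_edge.2 rfl
    rw [mem_edge] at this
    simp only [Prod.mk.injEq, true_and] at this
    exact this
  have h1 : a = b := val_inj hr univ (by simpa using ht) fun i _ => (key i).1
  subst h1
  rw [Prod.mk.injEq]
  exact ⟨rfl, funext fun i => (key i).2⟩

theorem code_le {n : ℕ} {ds : List ℕ} (hds : ∀ d ∈ ds, 1 ≤ d) {j : ℕ} (hj : j < ds.length)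
    [Fact q.Prime] (hq : ds.length + 1 ≤ q)
    (hw : (ds.length - j) * w < (ds.drop j).prod ∨ (w = 1 ∧ 2 ≤ (ds.drop j).prod))
    (hn : (ds.length + 1) * (q * w) ≤ n) :
    q ^ (j + 1) * w ^ (ds.length + 1) ≤ ex n ds := by
  classical
  have : NeZero q := ⟨(Fact.out : q.Prime).ne_zero⟩
  set r := ds.length + 1 with hr
  set F : Finset (Finset (Fin r × ZMod q × Fin w)) :=
    univ.image fun p : (Fin (j + 1) → ZMod q) × (Fin r → Fin w) => edge p.1 p.2 with hF
  have hFc : F.card = q ^ (j + 1) * w ^ r := by
    rw [hF, card_image_of_injective _ (edge_inj hq (by omega)), Finset.card_univ]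
    simp [ZMod.card]
  rw [← hFc]
  refine le_ex_of_cfg hds hj ?_ F ?_ ?_
  · simpa [ZMod.card] using hn
  · intro e he
    obtain ⟨p, -, rfl⟩ := mem_image.1 he
    exact card_edge _ _
  · intro A Z hA hZ h
    have hP : 0 < (ds.drop j).prod := List.prod_pos fun a ha => hds a (List.mem_of_mem_drop ha)
    have h' : ∀ z ∈ Z, ∃ a y, A ⊆ edge a y ∧ Z ∩ edge (q := q) (t := j + 1) (r := r) (w := w) a y = {z} := by
      intro z hz
      obtain ⟨e, he, h1, h2⟩ := h z hz
      obtain ⟨p, -, rfl⟩ := mem_image.1 he
      exact ⟨p.1, p.2, h1, h2⟩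
    obtain ⟨z0, hz0⟩ := card_pos.1 (by rw [hZ]; exact hP : 0 < Z.card)
    have hne : Nonempty (Fin w) := ⟨z0.2.2⟩
    choose! a y h1 h2 using h'
    -- the positions of the path
    set I := A.image Prod.fst with hI
    have hIc : I.card = j + 1 := by
      rw [hI, card_image_of_injOn, hA]
      intro x hx x' hx' hxx
      have g1 := mem_edge.1 (h1 z0 hz0 hx)
      have g2 := mem_edge.1 (h1 z0 hz0 hx')
      rw [g1, g2, hxx]
    have haeq : ∀ z ∈ Z, a z = a z0 := by
      intro z hz
      refine val_inj hq I hIc.ge ?_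
      intro i hi
      obtain ⟨x, hx, rfl⟩ := mem_image.1 hi
      have g1 := mem_edge.1 (h1 z0 hz0 hx)
      have g2 := mem_edge.1 (h1 z hz hx)
      have g3 := (Prod.ext_iff.1 (Prod.ext_iff.1 g1).2).1
      have g4 := (Prod.ext_iff.1 (Prod.ext_iff.1 g2).2).1
      simp only at g3 g4
      rw [← g3, ← g4]
    have hzmem : ∀ z ∈ Z, z ∈ edge (a z) (y z) := by
      intro z hz
      have h3 := h2 z hz
      have h4 : z ∈ Z ∩ edge (a z) (y z) := by
        rw [h3]
        exact mem_singleton_self z
      exact (mem_inter.1 h4).2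
    rcases hw with hw | ⟨rfl, hw⟩
    · by_cases hZ1 : Z.card = 1
      · -- then `w = 0`, which is impossible
        rw [hZ] at hZ1
        rw [hZ1] at hw
        have hw0 : w = 0 := by
          rcases Nat.eq_zero_or_pos w with h0 | h0
          · exact h0
          · have : 0 < (ds.length - j) * w := Nat.mul_pos (by omega) h0
            omega
        subst hw0
        exact (z0.2.2).elim0
      have hnot : ∀ z ∈ Z, z ∉ A := by
        intro z hz hzA
        apply hZ1
        have : Z ⊆ {z} := by
          intro z' hz'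
          have : z ∈ Z ∩ edge (a z') (y z') := mem_inter.2 ⟨hz, h1 z' hz' hzA⟩
          rw [h2 z' hz', mem_singleton] at this
          rw [this]; exact mem_singleton_self _
        have h3 := card_le_card this
        rw [card_singleton] at h3
        have : 0 < Z.card := card_pos.2 ⟨z, hz⟩
        omega
      have hle : Z.card ≤ (Iᶜ ×ˢ (univ : Finset (Fin w))).card := by
        refine card_le_card_of_injOn (fun z => (z.1, z.2.2)) ?_ ?_
        · intro z hz
          simp only [coe_product, coe_univ, Set.mem_prod, Set.mem_univ, and_true]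
          rw [mem_coe, mem_compl]
          intro hzI
          obtain ⟨x, hx, hxz⟩ := mem_image.1 hzI
          have g1 := mem_edge.1 (h1 z hz hx)
          have g2 := mem_edge.1 (hzmem z hz)
          apply hnot z hz
          rw [g2, ← hxz, ← g1]
          exact hx
        · intro z hz z' hz' hzz
          simp only [Prod.mk.injEq] at hzz
          have g1 := mem_edge.1 (hzmem z hz)
          have g2 := mem_edge.1 (hzmem z' hz')
          rw [haeq z hz] at g1
          rw [haeq z' hz'] at g2
          have e1 := (Prod.ext_iff.1 (Prod.ext_iff.1 g1).2).1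
          have e2 := (Prod.ext_iff.1 (Prod.ext_iff.1 g2).2).1
          simp only at e1 e2
          refine Prod.ext hzz.1 (Prod.ext ?_ hzz.2)
          rw [e1, e2, hzz.1]
      rw [card_product, card_compl, hIc, Fintype.card_fin, Finset.card_univ, Fintype.card_fin, hZ] at hle
      have e3 : r - (j + 1) = ds.length - j := by omega
      rw [e3] at hle
      omega
    · have h3 : ∀ z ∈ Z, z = z0 := by
        intro z hz
        have e1 : edge (a z) (y z) = edge (a z0) (y z0) := by
          rw [haeq z hz, Subsingleton.elim (y z) (y z0)]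
        have e2 := h2 z hz
        rw [e1, h2 z0 hz0, singleton_inj] at e2
        exact e2.symm
      have h4 : Z.card ≤ 1 := by
        rw [card_le_one]
        intro x hx x' hx'
        rw [h3 x hx, h3 x' hx']
      omega

/-- The constant of the lower bound. -/
def C1 (r : ℕ) : ℕ := (4 * r ^ 2) ^ r * (r ^ r * r.factorial) + (2 * r) ^ r

theorem pow_aux (r w q a b : ℕ) : (2 * r * w * q) ^ b * (2 * r * w) ^ a =
    (2 * r) ^ (a + b) * (q ^ b * w ^ (a + b)) := by
  rw [pow_add, pow_add]
  simp only [mul_pow]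
  ring

theorem term_lower {n : ℕ} {ds : List ℕ} (hds : ∀ d ∈ ds, 1 ≤ d) {j : ℕ} (hj : j < ds.length)
    (hn : ds.length + 1 ≤ n) :
    min (n ^ (ds.length + 1)) (n ^ (j + 1) * ((ds.drop j).prod - 1) ^ (ds.length - j)) ≤
      C1 (ds.length + 1) * ex n ds := by
  set r := ds.length + 1 with hr
  set P := (ds.drop j).prod with hP
  have hPpos : 0 < P := List.prod_pos fun a ha => hds a (List.mem_of_mem_drop ha)
  rcases Nat.lt_or_ge P 2 with hP1 | hP2
  · have : P - 1 = 0 := by omega
    rw [this, zero_pow (by omega), mul_zero, min_eq_right (Nat.zero_le _)]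
    exact Nat.zero_le _
  have hPD : P ≤ ds.prod := by
    have := win_le hds j ds.length
    unfold win at this
    rwa [List.take_of_length_le (by simp)] at this
  have hD : 2 ≤ ds.prod := hP2.trans hPD
  set w := max 1 ((P - 1) / (ds.length - j)) with hw
  have hmj : 0 < ds.length - j := by omega
  have hwle : w ≤ P - 1 := by
    rw [hw]
    exact max_le (by omega) (Nat.div_le_self _ _)
  have hw1 : 1 ≤ w := le_max_left _ _
  have hcase : (ds.length - j) * w < P ∨ (w = 1 ∧ 2 ≤ P) := by
    rcases Nat.lt_or_ge ((P - 1) / (ds.length - j)) 1 with h | h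
    · right
      refine ⟨?_, hP2⟩
      rw [hw]
      exact max_eq_left h.le
    · left
      have : w = (P - 1) / (ds.length - j) := by rw [hw]; exact max_eq_right h
      rw [this]
      have := Nat.mul_div_le (P - 1) (ds.length - j)
      omega
  have hPw : P - 1 ≤ 2 * r * w := by
    have h1 : P - 1 < (ds.length - j) * ((P - 1) / (ds.length - j) + 1) := Nat.lt_mul_div_succ _ hmj
    have h2 : (P - 1) / (ds.length - j) + 1 ≤ 2 * w := by
      have : (P - 1) / (ds.length - j) ≤ w := le_max_right _ _
      omega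
    have h3 : (ds.length - j) * ((P - 1) / (ds.length - j) + 1) ≤ r * (2 * w) :=
      Nat.mul_le_mul (by omega) h2
    have h4 : r * (2 * w) = 2 * r * w := by ring
    omega
  rcases Nat.lt_or_ge (4 * r ^ 2 * w) n with hbig | hsmall
  · -- the code
    have hrw : 0 < r * w := Nat.mul_pos (by omega) hw1
    set N := n / (r * w) with hN
    have hN1 : 4 * r ≤ N := by
      rw [hN, Nat.le_div_iff_mul_le hrw]
      have : 4 * r * (r * w) = 4 * r ^ 2 * w := by ring
      omega
    obtain ⟨q, hqp, hq1, hq2⟩ := Nat.exists_prime_lt_and_le_two_mul (N / 2) (by omega)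
    have : Fact q.Prime := ⟨hqp⟩
    have hqr : ds.length + 1 ≤ q := by omega
    have hqN : q ≤ N := by omega
    have hqn : (ds.length + 1) * (q * w) ≤ n := by
      calc (ds.length + 1) * (q * w) = q * (r * w) := by rw [hr]; ring
        _ ≤ N * (r * w) := Nat.mul_le_mul_right _ hqN
        _ ≤ n := Nat.div_mul_le_self _ _
    have h1 := code_le (q := q) (w := w) hds hj hqr (by rw [← hP]; exact hcase) hqn
    have h2 : n ≤ 2 * r * w * q := by
      have h3 : n < r * w * (N + 1) := Nat.lt_mul_div_succ _ hrw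
      have h4 : N + 1 ≤ 2 * q := by omega
      calc n ≤ r * w * (N + 1) := h3.le
        _ ≤ r * w * (2 * q) := Nat.mul_le_mul_left _ h4
        _ = _ := by ring
    refine (min_le_right _ _).trans ?_
    have e1 : ds.length - j + (j + 1) = r := by omega
    calc n ^ (j + 1) * (P - 1) ^ (ds.length - j)
        ≤ (2 * r * w * q) ^ (j + 1) * (2 * r * w) ^ (ds.length - j) :=
          Nat.mul_le_mul (Nat.pow_le_pow_left h2 _) (Nat.pow_le_pow_left hPw _)
      _ = (2 * r) ^ (ds.length - j + (j + 1)) * (q ^ (j + 1) * w ^ (ds.length - j + (j + 1))) :=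
          pow_aux _ _ _ _ _
      _ = (2 * r) ^ r * (q ^ (j + 1) * w ^ r) := by rw [e1]
      _ ≤ (2 * r) ^ r * ex n ds := Nat.mul_le_mul_left _ h1
      _ ≤ C1 r * ex n ds := Nat.mul_le_mul_right _ (Nat.le_add_left _ _)
  · refine (min_le_left _ _).trans ?_
    have h1 : n ≤ 4 * r ^ 2 * min n ds.prod := by
      rcases le_total n ds.prod with h | h
      · rw [min_eq_left h]
        exact Nat.le_mul_of_pos_left _ (by positivity)
      · rw [min_eq_right h]
        exact hsmall.trans (Nat.mul_le_mul_left _ (by omega))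
    calc n ^ r ≤ (4 * r ^ 2 * min n ds.prod) ^ r := Nat.pow_le_pow_left h1 _
      _ = (4 * r ^ 2) ^ r * (min n ds.prod) ^ r := mul_pow _ _ _
      _ ≤ (4 * r ^ 2) ^ r * (r ^ r * r.factorial * ex n ds) :=
          Nat.mul_le_mul_left _ (min_pow_le hds hD hn)
      _ = (4 * r ^ 2) ^ r * (r ^ r * r.factorial) * ex n ds := by ring
      _ ≤ C1 r * ex n ds := Nat.mul_le_mul_right _ (Nat.le_add_right _ _)

theorem min_sum_le {ι : Type*} (s : Finset ι) (a : ℕ) (f : ι → ℕ) :
    min a (∑ i ∈ s, f i) ≤ ∑ i ∈ s, min a (f i) := by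
  classical
  induction s using Finset.induction_on with
  | empty => simp
  | insert i s hi ih =>
    rw [sum_insert hi, sum_insert hi]
    omega

/-- **The lower bound.** -/
theorem lower_le {n : ℕ} {ds : List ℕ} (hds : ∀ d ∈ ds, 1 ≤ d) (hn : ds.length + 1 ≤ n) :
    min (n ^ (ds.length + 1)) (lowerSum n ds) ≤ ds.length * C1 (ds.length + 1) * ex n ds := by
  unfold lowerSum
  refine (min_sum_le _ _ _).trans ?_
  refine (sum_le_card_nsmul _ _ _ fun j hj => term_lower hds (mem_range.1 hj) hn).trans ?_
  rw [card_range, smul_eq_mul, mul_assoc]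

end Pool.Agent.H21.GS
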