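import Pool.Agent.H21.GS.Count
import Pool.Graph.R_pool_sql_team_seeded_620a6dc7.H152.HR.Ramsey

/-!
# Chains in families of sets which are closed under unions
-/

set_option autoImplicit false
set_option linter.unusedSectionVars false

namespace Pool.Agent.H21.GS

open Finset

variable {r : ℕ}

/-- The families `U 1, U 2, …` are closed under unions, and each set with `i` elements contains a
nonempty member of `U i`. -/
structure Nested (t : ℕ) (U : ℕ → Finset (Fin r) → Prop) : Prop where
  union : ∀ i A B, U i A → U i B → U i (A ∪ B)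
  member : ∀ i, 1 ≤ i → i ≤ t → ∀ I : Finset (Fin r), I.card = i → ∃ R ⊆ I, R.Nonempty ∧ U i R

/-- There is a chain of sets with `1, …, t` elements in `U 1, …, U t`. -/
def HasChain (t : ℕ) (U : ℕ → Finset (Fin r) → Prop) : Prop :=
  ∃ L : List (Fin r), L.length = t ∧ L.Nodup ∧ ∀ i, 1 ≤ i → i ≤ t → U i (L.take i).toFinset

theorem multi_ramsey (K : Type) [Fintype K] (q : ℕ) : ∀ k : ℕ, ∃ N : ℕ, ∀ c : Finset ℕ → K,
    ∀ S : Finset ℕ, N ≤ S.card → ∃ Q ⊆ S, Q.card = q ∧ ∀ s < k, ∃ col : K, ∀ J ⊆ Q, J.card = s →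
      c J = col := by
  intro k
  induction k generalizing q with
  | zero =>
    refine ⟨q, fun c S hS => ?_⟩
    obtain ⟨Q, hQ, hc⟩ := exists_subset_card_eq hS
    exact ⟨Q, hQ, hc, fun s hs => absurd hs (Nat.not_lt_zero _)⟩
  | succ k ih =>
    obtain ⟨N1, h1⟩ := H152HR.ramsey K k q
    obtain ⟨N, h2⟩ := ih N1
    refine ⟨N, fun c S hS => ?_⟩
    obtain ⟨Q1, hQ1, hc1, h3⟩ := h2 c S hS
    obtain ⟨Q, hQ, hc, col, hcol⟩ := h1 c Q1 hc1.ge
    refine ⟨Q, hQ.trans hQ1, hc, fun s hs => ?_⟩
    rcases Nat.lt_or_ge s k with h | h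
    · obtain ⟨col', h4⟩ := h3 s h
      exact ⟨col', fun J hJ => h4 J (hJ.trans hQ)⟩
    · have : s = k := by omega
      subst this
      exact ⟨col, hcol⟩

/-- Members of the same size generate the whole set. -/
theorem union_closed {U : Finset (Fin r) → Prop} (hU : ∀ A B, U A → U B → U (A ∪ B))
    {R I : Finset (Fin r)} (hR : R ⊆ I) (hne : R.Nonempty)
    (h : ∀ R' ⊆ I, R'.card = R.card → U R') : U I := by
  classical
  obtain ⟨a, ha⟩ := hne
  have key : ∀ Z : Finset (Fin r), Z ⊆ I \ R → U (R ∪ Z) := by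
    intro Z
    induction Z using Finset.induction_on with
    | empty =>
      intro _
      rw [union_empty]
      exact h R hR rfl
    | insert x Z hx ih =>
      intro hZ
      have hxI := mem_sdiff.1 (hZ (mem_insert_self x Z))
      have h1 := ih fun y hy => hZ (mem_insert_of_mem hy)
      have hxR : x ∉ R.erase a := fun h => hxI.2 (mem_of_mem_erase h)
      have h2 : U (insert x (R.erase a)) := by
        refine h _ ?_ ?_
        · intro y hy
          rcases mem_insert.1 hy with rfl | hy
          · exact hxI.1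
          · exact hR (mem_of_mem_erase hy)
        · rw [card_insert_of_notMem hxR, card_erase_of_mem ha]
          have := card_pos.2 ⟨a, ha⟩
          omega
      have h3 : R ∪ insert x Z = (R ∪ Z) ∪ insert x (R.erase a) := by
        ext y
        simp only [mem_union, mem_insert, mem_erase]
        tauto
      rw [h3]
      exact hU _ _ h1 h2
  have h1 := key (I \ R) (Subset.refl _)
  rwa [union_sdiff_of_subset hR] at h1

theorem chain_ramsey (t : ℕ) : ∃ N : ℕ, ∀ r : ℕ, N ≤ r → ∀ U : ℕ → Finset (Fin r) → Prop,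
    Nested t U → HasChain t U := by
  classical
  obtain ⟨N, hN⟩ := multi_ramsey (Fin (t + 1) → Bool) t (t + 1)
  refine ⟨N, fun r hr U hU => ?_⟩
  obtain ⟨Q, hQ, hQc, hcol⟩ := hN (fun J i => decide (U i (univ.filter fun p : Fin r => (p : ℕ) ∈ J)))
    (range r) (by rw [card_range]; exact hr)
  set H : Finset (Fin r) := univ.filter fun p : Fin r => (p : ℕ) ∈ Q with hH
  have himg : ∀ I : Finset (Fin r), (univ.filter fun p : Fin r => (p : ℕ) ∈ I.image Fin.val) = I := by
    intro I
    ext p
    simp only [mem_filter, mem_univ, true_and, mem_image]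
    constructor
    · rintro ⟨q, hq, h⟩
      rwa [← Fin.ext h]
    · exact fun h => ⟨p, h, rfl⟩
  have hHc : H.card = t := by
    rw [← hQc]
    refine card_bij (fun p _ => (p : ℕ)) (fun p hp => (mem_filter.1 hp).2)
      (fun p _ q _ h => Fin.ext h) ?_
    intro b hb
    exact ⟨⟨b, mem_range.1 (hQ hb)⟩, mem_filter.2 ⟨mem_univ _, hb⟩, rfl⟩
  -- membership depends on the number of elements only
  have hsame : ∀ i ≤ t, ∀ A B : Finset (Fin r), A ⊆ H → B ⊆ H → A.card = B.card → U i A → U i B := by
    intro i hi A B hA hB hAB hUA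
    have hAt : A.card < t + 1 := by
      have := card_le_card hA
      omega
    obtain ⟨col, h1⟩ := hcol A.card hAt
    have sub : ∀ I : Finset (Fin r), I ⊆ H → I.image Fin.val ⊆ Q := by
      intro I hI y hy
      obtain ⟨p, hp, rfl⟩ := mem_image.1 hy
      exact (mem_filter.1 (hI hp)).2
    have h2 := h1 (A.image Fin.val) (sub A hA) (card_image_of_injective _ Fin.val_injective)
    have h3 := h1 (B.image Fin.val) (sub B hB)
      ((card_image_of_injective _ Fin.val_injective).trans hAB.symm)
    have h4 := congrFun (h2.trans h3.symm) ⟨i, Nat.lt_succ_of_le hi⟩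
    simp only [himg] at h4
    have h5 : decide (U i A) = true := decide_eq_true hUA
    rw [h5] at h4
    exact of_decide_eq_true h4.symm
  have hall : ∀ i, 1 ≤ i → i ≤ t → ∀ I ⊆ H, I.card = i → U i I := by
    intro i h1 hi I hI hIc
    obtain ⟨R, hRI, hne, hUR⟩ := hU.member i h1 hi I hIc
    refine union_closed (hU.union i) hRI hne fun R' hR' hc => ?_
    exact hsame i hi R R' (hRI.trans hI) (hR'.trans hI) hc.symm hUR
  refine ⟨H.toList, by rw [length_toList, hHc], nodup_toList _, fun i h1 hi => ?_⟩
  refine hall i h1 hi _ ?_ ?_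
  · intro p hp
    exact mem_toList.1 (List.mem_of_mem_take (List.mem_toFinset.1 hp))
  · rw [List.toFinset_card_of_nodup ((nodup_toList H).sublist (List.take_sublist _ _)),
      List.length_take, length_toList, hHc]
    omega

end Pool.Agent.H21.GS
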