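import Pool.Agent.H21.GS.Nest

/-!
# Short chains
-/

set_option autoImplicit false
set_option linter.unusedSectionVars false

namespace Pool.Agent.H21.GS

open Finset

variable {r : ℕ}

theorem pair_cases {U : Finset (Fin r) → Prop} {a b : Fin r}
    (h : ∃ R ⊆ ({a, b} : Finset (Fin r)), R.Nonempty ∧ U R) : U {a} ∨ U {b} ∨ U {a, b} := by
  obtain ⟨R, hR, hne, hU⟩ := h
  by_cases ha : a ∈ R <;> by_cases hb : b ∈ R
  · have : R = {a, b} := Subset.antisymm hR (by
      intro y hy
      simp only [mem_insert, mem_singleton] at hy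
      rcases hy with rfl | rfl <;> assumption)
    exact Or.inr (Or.inr (this ▸ hU))
  · have : R = {a} := by
      refine Subset.antisymm (fun y hy => ?_) (singleton_subset_iff.2 ha)
      have := hR hy
      simp only [mem_insert, mem_singleton] at this ⊢
      rcases this with rfl | rfl
      · rfl
      · exact absurd hy hb
    exact Or.inl (this ▸ hU)
  · have : R = {b} := by
      refine Subset.antisymm (fun y hy => ?_) (singleton_subset_iff.2 hb)
      have := hR hy
      simp only [mem_insert, mem_singleton] at this ⊢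
      rcases this with rfl | rfl
      · exact absurd hy ha
      · rfl
    exact Or.inr (Or.inl (this ▸ hU))
  · obtain ⟨y, hy⟩ := hne
    have := hR hy
    simp only [mem_insert, mem_singleton] at this
    rcases this with rfl | rfl
    · exact absurd hy ha
    · exact absurd hy hb

theorem triple_cases {U : Finset (Fin r) → Prop} {a b c : Fin r}
    (h : ∃ R ⊆ ({a, b, c} : Finset (Fin r)), R.Nonempty ∧ U R) :
    (U {a} ∨ U {b} ∨ U {a, b}) ∨ U {c} ∨ U {a, c} ∨ U {b, c} ∨ U {a, b, c} := by
  classical
  obtain ⟨R, hR, hne, hU⟩ := h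
  by_cases hc : c ∈ R
  · by_cases ha : a ∈ R <;> by_cases hb : b ∈ R
    · have : R = {a, b, c} := Subset.antisymm hR (by
        intro y hy
        simp only [mem_insert, mem_singleton] at hy
        rcases hy with rfl | rfl | rfl <;> assumption)
      exact Or.inr (Or.inr (Or.inr (Or.inr (this ▸ hU))))
    · have : R = {a, c} := by
        refine Subset.antisymm (fun y hy => ?_) (fun y hy => ?_)
        · have := hR hy
          simp only [mem_insert, mem_singleton] at this ⊢
          rcases this with rfl | rfl | rfl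
          · exact Or.inl rfl
          · exact absurd hy hb
          · exact Or.inr rfl
        · simp only [mem_insert, mem_singleton] at hy
          rcases hy with rfl | rfl <;> assumption
      exact Or.inr (Or.inr (Or.inl (this ▸ hU)))
    · have : R = {b, c} := by
        refine Subset.antisymm (fun y hy => ?_) (fun y hy => ?_)
        · have := hR hy
          simp only [mem_insert, mem_singleton] at this ⊢
          rcases this with rfl | rfl | rfl
          · exact absurd hy ha
          · exact Or.inl rfl
          · exact Or.inr rfl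
        · simp only [mem_insert, mem_singleton] at hy
          rcases hy with rfl | rfl <;> assumption
      exact Or.inr (Or.inr (Or.inr (Or.inl (this ▸ hU))))
    · have : R = {c} := by
        refine Subset.antisymm (fun y hy => ?_) (singleton_subset_iff.2 hc)
        have := hR hy
        simp only [mem_insert, mem_singleton] at this ⊢
        rcases this with rfl | rfl | rfl
        · exact absurd hy ha
        · exact absurd hy hb
        · rfl
      exact Or.inr (Or.inl (this ▸ hU))
  · refine Or.inl (pair_cases ⟨R, fun y hy => ?_, hne, hU⟩)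
    have := hR hy
    simp only [mem_insert, mem_singleton] at this ⊢
    rcases this with rfl | rfl | rfl
    · exact Or.inl rfl
    · exact Or.inr rfl
    · exact absurd hy hc

/-- Among three elements there are two which form a member. -/
theorem pair_of_triple {U : Finset (Fin r) → Prop} (hU : ∀ A B, U A → U B → U (A ∪ B))
    (h2 : ∀ I : Finset (Fin r), I.card = 2 → ∃ R ⊆ I, R.Nonempty ∧ U R) {a b c : Fin r}
    (hab : a ≠ b) (hac : a ≠ c) (hbc : b ≠ c) : U {a, b} ∨ U {a, c} ∨ U {b, c} := by
  have e : ∀ p q : Fin r, U {p} → U {q} → U {p, q} := fun p q hp hq => hU {p} {q} hp hq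
  have h1 := pair_cases (h2 {a, b} (card_pair hab))
  have h3 := pair_cases (h2 {a, c} (card_pair hac))
  have h4 := pair_cases (h2 {b, c} (card_pair hbc))
  have e1 := e a b
  have e2 := e a c
  have e3 := e b c
  tauto

theorem chain_one {U : ℕ → Finset (Fin r) → Prop} (hr : 1 ≤ r) (hU : Nested 1 U) : HasChain 1 U := by
  obtain ⟨R, hR, hne, h⟩ := hU.member 1 le_rfl le_rfl {⟨0, hr⟩} (card_singleton _)
  have : R = {⟨0, hr⟩} := (subset_singleton_iff.1 hR).resolve_left hne.ne_empty
  subst this
  refine ⟨[⟨0, hr⟩], rfl, List.nodup_singleton _, fun i h1 h2 => ?_⟩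
  have : i = 1 := by omega
  subst this
  simpa using h

theorem single_mem {t : ℕ} {U : ℕ → Finset (Fin r) → Prop} (hU : Nested t U) (ht : 1 ≤ t)
    (p : Fin r) : U 1 {p} := by
  obtain ⟨R, hR, hne, h⟩ := hU.member 1 le_rfl ht {p} (card_singleton _)
  have : R = {p} := (subset_singleton_iff.1 hR).resolve_left hne.ne_empty
  rwa [← this]

theorem chain_of_pair {U : ℕ → Finset (Fin r) → Prop} (hU : Nested 2 U) {a b : Fin r} (hab : a ≠ b)
    (h : U 2 {a, b}) : HasChain 2 U := by
  refine ⟨[a, b], rfl, by simpa using hab, fun i h1 h2 => ?_⟩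
  have : i = 1 ∨ i = 2 := by omega
  rcases this with rfl | rfl
  · simpa using single_mem hU (by norm_num) a
  · simpa using h

theorem chain_two {U : ℕ → Finset (Fin r) → Prop} (hr : 3 ≤ r) (hU : Nested 2 U) : HasChain 2 U := by
  have hab : (⟨0, by omega⟩ : Fin r) ≠ ⟨1, by omega⟩ := by simp
  have hac : (⟨0, by omega⟩ : Fin r) ≠ ⟨2, by omega⟩ := by simp
  have hbc : (⟨1, by omega⟩ : Fin r) ≠ ⟨2, by omega⟩ := by simp
  rcases pair_of_triple (hU.union 2) (fun I hI => hU.member 2 (by norm_num) le_rfl I hI) hab hac hbc
    with h | h | h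
  · exact chain_of_pair hU hab h
  · exact chain_of_pair hU hac h
  · exact chain_of_pair hU hbc h

theorem chain_of_triple' {U : ℕ → Finset (Fin r) → Prop} (hU : Nested 3 U) {a b c : Fin r}
    (hab : a ≠ b) (hac : a ≠ c) (hbc : b ≠ c) (h : U 3 {a, b, c}) (h2 : U 2 {a, b}) :
    HasChain 3 U := by
  refine ⟨[a, b, c], rfl, by simp [hab, hac, hbc], fun i h1 h3 => ?_⟩
  have : i = 1 ∨ i = 2 ∨ i = 3 := by omega
  rcases this with rfl | rfl | rfl
  · simpa using single_mem hU (by norm_num) a
  · simpa using h2
  · simpa using h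

theorem chain_of_triple {U : ℕ → Finset (Fin r) → Prop} (hU : Nested 3 U) {a b c : Fin r}
    (hab : a ≠ b) (hac : a ≠ c) (hbc : b ≠ c) (h : U 3 {a, b, c}) : HasChain 3 U := by
  classical
  rcases pair_of_triple (hU.union 2) (fun I hI => hU.member 2 (by norm_num) (by norm_num) I hI)
    hab hac hbc with h2 | h2 | h2
  · exact chain_of_triple' hU hab hac hbc h h2
  · refine chain_of_triple' hU hac hab hbc.symm ?_ h2
    have : ({a, c, b} : Finset (Fin r)) = {a, b, c} := by
      ext y; simp only [mem_insert, mem_singleton]; tauto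
    rwa [this]
  · refine chain_of_triple' hU hbc hab.symm hac.symm ?_ h2
    have : ({b, c, a} : Finset (Fin r)) = {a, b, c} := by
      ext y; simp only [mem_insert, mem_singleton]; tauto
    rwa [this]

/-- There is an element outside of a small set. -/
theorem exists_out {S : Finset (Fin r)} (h : S.card < r) : ∃ p, p ∉ S := by
  by_contra hcon
  push Not at hcon
  have : S = univ := eq_univ_iff_forall.2 hcon
  rw [this, card_univ, Fintype.card_fin] at h
  exact lt_irrefl _ h

theorem chain_three {U : ℕ → Finset (Fin r) → Prop} (hr : 5 ≤ r) (hU : Nested 3 U) :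
    HasChain 3 U := by
  classical
  have hmem : ∀ a b c : Fin r, a ≠ b → a ≠ c → b ≠ c →
      ∃ R ⊆ ({a, b, c} : Finset (Fin r)), R.Nonempty ∧ U 3 R := fun a b c hab hac hbc =>
    hU.member 3 (by norm_num) le_rfl _ (card_eq_three.2 ⟨a, b, c, hab, hac, hbc, rfl⟩)
  have hun : ∀ a b c : Fin r, U 3 {a} → U 3 {b, c} → U 3 {a, b, c} := fun a b c h1 h2 =>
    hU.union 3 {a} {b, c} h1 h2
  have hex : ∀ S : Finset (Fin r), S.card < 5 → ∃ p, p ∉ S := fun S hS => exists_out (by omega)
  by_cases hs : ∃ p, U 3 {p}
  · obtain ⟨p, hp⟩ := hs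
    set S : Finset (Fin r) := univ.filter fun q => U 3 {q} with hS
    have hmS : ∀ q, q ∈ S ↔ U 3 {q} := fun q => by simp [hS]
    rcases Nat.lt_or_ge 2 S.card with h | h
    · obtain ⟨a, b, c, ha, hb, hc, hab, hac, hbc⟩ := two_lt_card_iff.1 h
      exact chain_of_triple hU hab hac hbc (hun _ _ _ ((hmS a).1 ha)
        (hU.union 3 {b} {c} ((hmS b).1 hb) ((hmS c).1 hc)))
    · obtain ⟨a, ha⟩ := hex S (by omega)
      obtain ⟨b, hb⟩ := hex (insert a S) ((card_insert_le _ _).trans_lt (by omega))
      obtain ⟨c, hc⟩ := hex (insert b (insert a S))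
        ((card_insert_le _ _).trans_lt (by have := card_insert_le a S; omega))
      simp only [mem_insert, not_or, hmS] at ha hb hc
      have hab : a ≠ b := fun h => hb.1 h.symm
      have hac : a ≠ c := fun h => hc.2.1 h.symm
      have hbc : b ≠ c := fun h => hc.1 h.symm
      have hpa : p ≠ a := fun h => ha (h ▸ hp)
      have hpb : p ≠ b := fun h => hb.2 (h ▸ hp)
      have hpc : p ≠ c := fun h => hc.2.2 (h ▸ hp)
      rcases triple_cases (hmem a b c hab hac hbc) with (h1 | h1 | h1) | h1 | h1 | h1 | h1
      · exact absurd h1 ha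
      · exact absurd h1 hb.2
      · exact chain_of_triple hU hpa hpb hab (hun _ _ _ hp h1)
      · exact absurd h1 hc.2.2
      · exact chain_of_triple hU hpa hpc hac (hun _ _ _ hp h1)
      · exact chain_of_triple hU hpb hpc hbc (hun _ _ _ hp h1)
      · exact chain_of_triple hU hab hac hbc h1
  · push Not at hs
    by_cases hd : ∃ a b c : Fin r, a ≠ b ∧ a ≠ c ∧ b ≠ c ∧ U 3 {a, b} ∧ U 3 {a, c}
    · obtain ⟨a, b, c, hab, hac, hbc, h1, h2⟩ := hd
      refine chain_of_triple hU hab hac hbc ?_
      have : ({a, b, c} : Finset (Fin r)) = {a, b} ∪ {a, c} := by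
        ext y; simp only [mem_insert, mem_singleton, mem_union]; tauto
      rw [this]
      exact hU.union 3 _ _ h1 h2
    · push Not at hd
      set B : Fin r → Finset (Fin r) := fun a => univ.filter fun b => a ≠ b ∧ U 3 {a, b} with hB
      have hmB : ∀ a b, b ∈ B a ↔ a ≠ b ∧ U 3 {a, b} := fun a b => by simp [hB]
      have hBc : ∀ a, (B a).card ≤ 1 := by
        intro a
        refine card_le_one.2 fun b hb c hc => ?_
        by_contra hbc
        have h1 := (hmB a b).1 hb
        have h2 := (hmB a c).1 hc
        exact hd a b c h1.1 h2.1 hbc h1.2 h2.2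
      obtain ⟨a, -⟩ := hex ∅ (by simp)
      obtain ⟨b, hb⟩ := hex (insert a (B a))
        ((card_insert_le _ _).trans_lt (by have := hBc a; omega))
      obtain ⟨c, hc⟩ := hex (insert a (insert b (B a ∪ B b))) (by
        have h1 := card_insert_le a (insert b (B a ∪ B b))
        have h2 := card_insert_le b (B a ∪ B b)
        have h3 := card_union_le (B a) (B b)
        have h4 := hBc a
        have h5 := hBc b
        omega)
      simp only [mem_insert, not_or, mem_union, hmB, not_and] at hb hc
      have hab : a ≠ b := fun h => hb.1 h.symm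
      have hac : a ≠ c := fun h => hc.1 h.symm
      have hbc : b ≠ c := fun h => hc.2.1 h.symm
      rcases triple_cases (hmem a b c hab hac hbc) with (h1 | h1 | h1) | h1 | h1 | h1 | h1
      · exact absurd h1 (hs a)
      · exact absurd h1 (hs b)
      · exact absurd h1 (hb.2 hab)
      · exact absurd h1 (hs c)
      · exact absurd h1 (hc.2.2.1 hac)
      · exact absurd h1 (hc.2.2.2 hbc)
      · exact chain_of_triple hU hab hac hbc h1

end Pool.Agent.H21.GS
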