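import Pool.Agent.H21.GS.Nest2
import Pool.Agent.H21.GS.Large

/-!
# The order of a chain
-/

set_option autoImplicit false
set_option linter.unusedSectionVars false

namespace Pool.Agent.H21.GS

open Finset Pool.Agent.H21.Star

theorem chain_all : ∃ R : ℕ → ℕ, R 1 = 2 ∧ R 2 = 3 ∧ R 3 = 5 ∧ ∀ t r, 1 ≤ t → R t ≤ r →
    ∀ U : ℕ → Finset (Fin r) → Prop, Nested t U → HasChain t U := by
  refine ⟨fun t => if t = 1 then 2 else if t = 2 then 3 else if t = 3 then 5 else
    (chain_ramsey t).choose, rfl, rfl, rfl, ?_⟩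
  intro t r ht hr U hU
  by_cases h1 : t = 1
  · subst h1
    simp only [if_true] at hr
    exact chain_one (by omega) hU
  by_cases h2 : t = 2
  · subst h2
    simp only [if_true, if_neg h1] at hr
    exact chain_two hr hU
  by_cases h3 : t = 3
  · subst h3
    simp only [if_true, if_neg h1, if_neg h2] at hr
    exact chain_three hr hU
  · simp only [if_neg h1, if_neg h2, if_neg h3] at hr
    exact (chain_ramsey t).choose_spec r hr U hU

theorem card_pre {r : ℕ} {σ : Fin r → Fin r} (hσ : Function.Bijective σ) {k : ℕ} (hk : k ≤ r) :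
    (pre σ k).card = k := by
  unfold pre
  rw [card_image_of_injective _ hσ.1]
  have : (univ.filter fun i : Fin r => (i : ℕ) < k) = (univ : Finset (Fin k)).map (Fin.castLEEmb hk) := by
    ext i
    simp only [mem_filter, mem_univ, true_and, mem_map]
    constructor
    · intro h
      exact ⟨⟨i, h⟩, rfl⟩
    · rintro ⟨j, rfl⟩
      exact j.2
  rw [this, card_map, card_univ, Fintype.card_fin]

/-- The order of the positions which is given by a chain, and which is greedy for the other
positions. -/
theorem order_of_chain {r t : ℕ} {U : ℕ → Finset (Fin r) → Prop} (ht : 1 ≤ t) (h : HasChain t U)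
    (c : Finset (Fin r) → Fin r → ℕ) (B : ℕ) (hc : ∀ S p, c S p ≤ B) :
    ∃ σ : Fin r → Fin r, Function.Bijective σ ∧ (∀ i, 1 ≤ i → i ≤ t → U i (univ \ pre σ (r - i))) ∧
      ∀ k l : Fin r, k ≤ l → (l : ℕ) < r - t → c (pre σ k) (σ k) ≤ c (pre σ k) (σ l) := by
  classical
  obtain ⟨L, hL, hnd, hU⟩ := h
  have htr : t ≤ r := by
    have := hnd.length_le_card
    rwa [Fintype.card_fin, hL] at this
  obtain ⟨σ, hσ, hgr⟩ := greedy (fun (S : Finset (Fin r)) p =>
    if p ∈ L then B + 1 + (t - L.idxOf p) else c S p)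
  have hA : ∀ i ≤ t, (L.take i).toFinset.card = i := by
    intro i hi
    rw [List.toFinset_card_of_nodup (hnd.sublist (List.take_sublist _ _)), List.length_take, hL]
    omega
  have hlt : ∀ i ≤ t, ∀ p, p ∈ (L.take i).toFinset ↔ L.idxOf p < i := by
    intro i hi p
    rw [List.mem_toFinset]
    constructor
    · intro hp
      exact (List.mem_take_iff_idxOf_lt (List.mem_of_mem_take hp)).1 hp
    · intro hp
      have : p ∈ L := List.idxOf_lt_length_iff.1 (by omega)
      exact (List.mem_take_iff_idxOf_lt this).2 hp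
  have heq : ∀ i, 1 ≤ i → i ≤ t → (L.take i).toFinset = univ \ pre σ (r - i) := by
    intro i h1 hi
    have hsub : (L.take i).toFinset ⊆ univ \ pre σ (r - i) := by
      intro p hp
      rw [mem_sdiff]
      refine ⟨mem_univ _, fun hp' => ?_⟩
      obtain ⟨k, hk, rfl⟩ := mem_image.1 hp'
      have hk' : (k : ℕ) < r - i := (mem_filter.1 hk).2
      have hkL : σ k ∈ L := List.mem_of_mem_take (List.mem_toFinset.1 hp)
      have h2 : (univ.filter fun l : Fin r => k ≤ l).image σ ⊆ (L.take i).toFinset := by
        intro q hq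
        obtain ⟨l, hl, rfl⟩ := mem_image.1 hq
        have h3 := hgr k l (mem_filter.1 hl).2
        rw [if_pos hkL] at h3
        rw [hlt i hi] at hp ⊢
        by_cases hlL : σ l ∈ L
        · rw [if_pos hlL] at h3
          omega
        · rw [if_neg hlL] at h3
          have := hc (pre σ k) (σ l)
          omega
      have h3 := card_le_card h2
      rw [card_image_of_injective _ hσ.1, hA i hi] at h3
      have h4 : (univ.filter fun l : Fin r => k ≤ l) = Ici k := by
        ext l; simp
      rw [h4, Fin.card_Ici] at h3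
      omega
    refine eq_of_subset_of_card_le hsub ?_
    rw [card_sdiff_of_subset (subset_univ _), card_univ, Fintype.card_fin, card_pre hσ (Nat.sub_le _ _),
      hA i hi]
    omega
  refine ⟨σ, hσ, fun i h1 hi => by rw [← heq i h1 hi]; exact hU i h1 hi, fun k l hkl hl => ?_⟩
  have hout : ∀ a : Fin r, (a : ℕ) < r - t → σ a ∉ L := by
    intro a ha haL
    have h1 : σ a ∈ univ \ pre σ (r - t) := by
      rw [← heq t ht le_rfl, List.mem_toFinset, List.take_of_length_le hL.le]
      exact haL
    exact (mem_sdiff.1 h1).2 (mem_image.2 ⟨a, mem_filter.2 ⟨mem_univ _, ha⟩, rfl⟩)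
  have h1 := hgr k l hkl
  have hkl' : (k : ℕ) ≤ l := hkl
  rwa [if_neg (hout l hl), if_neg (hout k (by omega))] at h1

end Pool.Agent.H21.GS
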