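import Pool.Agent.H21.Star.Defs

/-!
# Ordered generalised stars, given by their paths, and the packing lemma
-/

set_option autoImplicit false
set_option linter.unusedSectionVars false

namespace Pool.Agent.H21.GS

open Finset Pool.Agent.H21.Star

variable {V : Type*} [DecidableEq V]

/-- `OStar ds v T`: `T` is the set of the paths from the root `v` to the leaves of an ordered
generalised star; paths in different branches differ at each level. -/
def OStar : List ℕ → V → Finset (List V) → Prop
  | [], v, T => T = {[v]}
  | d :: ds, v, T => ∃ (u : Fin d → V) (P : Fin d → Finset (List V)),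
      (∀ i, OStar ds (u i) (P i)) ∧
      (∀ i j, i ≠ j → ∀ p ∈ P i, ∀ q ∈ P j, List.Forall₂ (· ≠ ·) p q) ∧
      T = Finset.univ.biUnion fun i => (P i).image (List.cons v)

theorem OStar.length {ds : List ℕ} : ∀ {v : V} {T : Finset (List V)}, OStar ds v T →
    ∀ p ∈ T, p.length = ds.length + 1 := by
  induction ds with
  | nil =>
    intro v T h p hp
    have h' : T = {[v]} := h
    subst h'
    rw [mem_singleton] at hp
    subst hp
    rfl
  | cons d ds ih =>
    rintro v T ⟨u, P, hP, -, rfl⟩ p hp
    obtain ⟨i, -, hi⟩ := mem_biUnion.1 hp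
    obtain ⟨q, hq, rfl⟩ := mem_image.1 hi
    simp [ih (hP i) q hq]

/-- An ordered star whose levels have different colours is a generalised star. -/
theorem OStar.isStar {κ : Type*} (χ : V → κ) {ds : List ℕ} : ∀ {v : V} {T : Finset (List V)}
    {cs : List κ}, OStar ds v T → (∀ p ∈ T, p.map χ = cs) → cs.Nodup →
    IsStar ds (T.image List.toFinset) := by
  induction ds with
  | nil =>
    intro v T cs h _ _
    have h' : T = {[v]} := h
    subst h'
    exact ⟨v, by simp⟩
  | cons d ds ih =>
    rintro v T cs ⟨u, P, hP, hdis, rfl⟩ hcs hnd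
    have hmem : ∀ i, ∀ p ∈ P i, (v :: p).map χ = cs := fun i p hp =>
      hcs _ (mem_biUnion.2 ⟨i, mem_univ _, mem_image_of_mem _ hp⟩)
    have htail : ∀ i, ∀ p ∈ P i, p.map χ = cs.tail := by
      intro i p hp
      rw [← hmem i p hp]
      rfl
    have hnd' : cs.tail.Nodup := hnd.tail
    refine ⟨v, fun i => (P i).image List.toFinset, fun i => ⟨ih (hP i) (htail i) hnd', ?_⟩, ?_, ?_⟩
    · intro e he hv
      obtain ⟨p, hp, rfl⟩ := mem_image.1 he
      rw [List.mem_toFinset] at hv
      have h1 := hmem i p hp
      rw [← h1, List.map_cons, List.nodup_cons] at hnd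
      exact hnd.1 (List.mem_map_of_mem hv)
    · intro i j hij e he f hf
      obtain ⟨p, hp, rfl⟩ := mem_image.1 he
      obtain ⟨q, hq, rfl⟩ := mem_image.1 hf
      have h2 := hdis i j hij p hp q hq
      rw [disjoint_left]
      intro y hy hy'
      rw [List.mem_toFinset] at hy hy'
      obtain ⟨a, ha, rfl⟩ := List.getElem_of_mem hy
      obtain ⟨b, hb, hab⟩ := List.getElem_of_mem hy'
      have hlen : p.length = q.length := h2.length_eq
      have c1 : (p.map χ)[a]'(by simpa using ha) = χ p[a] := by simp
      have c2 : (q.map χ)[b]'(by simpa using hb) = χ q[b] := by simp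
      have hpq : p.map χ = q.map χ := by rw [htail i p hp, htail j q hq]
      have hne : (p.map χ).Nodup := by rw [htail i p hp]; exact hnd'
      have : a = b := by
        have h3 : (p.map χ)[a]'(by simpa using ha) = (p.map χ)[b]'(by simp; omega) := by
          rw [c1]
          have : (p.map χ)[b]'(by simp; omega) = (q.map χ)[b]'(by simpa using hb) := by
            simp only [hpq]
          rw [this, c2, hab]
        exact (hne.getElem_inj_iff).1 h3
      subst this
      exact (List.forall₂_iff_get.1 h2).2 a ha hb (by simpa using hab.symm)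
    · ext e
      simp only [mem_image, mem_biUnion, mem_univ, true_and]
      constructor
      · rintro ⟨p, ⟨i, q, hq, rfl⟩, rfl⟩
        exact ⟨i, _, ⟨q, hq, rfl⟩, by simp⟩
      · rintro ⟨i, _, ⟨q, hq, rfl⟩, rfl⟩
        exact ⟨_, ⟨i, q, hq, rfl⟩, by simp⟩

/-- The levels of an ordered star. -/
theorem OStar.levels {ds : List ℕ} : ∀ {v : V} {T : Finset (List V)}, OStar ds v T →
    ∃ L : ℕ → Finset V, (∀ k, k ≤ ds.length → (L k).card ≤ (ds.take k).prod) ∧
      ∀ p ∈ T, ∀ k, ∀ h : k < p.length, p[k] ∈ L k := by
  induction ds with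
  | nil =>
    intro v T h
    have h' : T = {[v]} := h
    subst h'
    refine ⟨fun _ => {v}, fun k _ => by simp, ?_⟩
    intro p hp k h
    rw [mem_singleton] at hp
    subst hp
    simp
  | cons d ds ih =>
    rintro v T ⟨u, P, hP, -, rfl⟩
    choose L hL1 hL2 using fun i => ih (hP i)
    refine ⟨fun k => match k with
      | 0 => {v}
      | k + 1 => univ.biUnion fun i => L i k, ?_, ?_⟩
    · rintro (_ | k) hk
      · simp
      · simp only [List.take_succ_cons, List.prod_cons]
        refine (card_biUnion_le_card_mul _ _ _ fun i _ => hL1 i k (by simpa using hk)).trans ?_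
        simp
    · intro p hp k hk
      obtain ⟨i, -, hi⟩ := mem_biUnion.1 hp
      obtain ⟨q, hq, rfl⟩ := mem_image.1 hi
      rcases k with _ | k
      · simp
      · simp only [List.getElem_cons_succ]
        exact mem_biUnion.2 ⟨i, mem_univ _, hL2 i q hq k (by simpa using hk)⟩

theorem exists_last {P : ℕ → Prop} {a : ℕ} (h0 : P 0) (ha : ¬ P a) : ∃ m < a, P m ∧ ¬ P (m + 1) := by
  induction a with
  | zero => exact absurd h0 ha
  | succ a ih =>
    by_cases h : P a
    · exact ⟨a, Nat.lt_succ_self a, h, ha⟩
    · obtain ⟨m, hm, h1, h2⟩ := ih h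
      exact ⟨m, hm.trans (Nat.lt_succ_self a), h1, h2⟩

/-- **The packing lemma.** If there is no ordered star with root `v` all of whose paths satisfy `R`,
then each path with root `v` satisfying `R` is covered: at some level it meets a small set that depends
only on a beginning of the path. -/
theorem pack (ds : List ℕ) (hds : ∀ d ∈ ds, 1 ≤ d) : ∀ (R : List V → Prop) (v : V),
    (¬ ∃ T, OStar ds v T ∧ ∀ p ∈ T, R p) →
    ∃ E : List V → ℕ → Finset V,
      (∀ p l, p.length < l → l ≤ ds.length →
        (E p l).card < ((ds.drop p.length).take (l - p.length)).prod) ∧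
      ∀ p : List V, p.length = ds.length → R (v :: p) →
        ∃ j l, j < l ∧ ∃ h : l - 1 < p.length, l ≤ ds.length ∧ p[l - 1] ∈ E (p.take j) l := by
  induction ds with
  | nil =>
    intro R v h
    refine ⟨fun _ _ => ∅, ?_, ?_⟩
    · intro p l h1 h2
      simp at h2
      omega
    · intro p hp hR
      rw [List.length_nil, List.length_eq_zero_iff] at hp
      subst hp
      exact absurd ⟨{[v]}, rfl, by simpa using hR⟩ h
  | cons d ds ih =>
    intro R v h
    have hd : 1 ≤ d := hds d (by simp)
    have hds' : ∀ d ∈ ds, 1 ≤ d := fun x hx => hds x (by simp [hx])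
    obtain ⟨m, hm, h0, hm1⟩ := exists_last
      (P := fun m => ∃ T, OStar (m :: ds) v T ∧ ∀ p ∈ T, R p)
      ⟨∅, ⟨Fin.elim0, Fin.elim0, fun i => i.elim0, fun i => i.elim0, by simp⟩, by simp⟩ h
    obtain ⟨T, hT, hTR⟩ := h0
    obtain ⟨u, P, hP, hdis, hTeq⟩ := hT
    obtain ⟨L, hL1, hL2⟩ := OStar.levels (ds := m :: ds) ⟨u, P, hP, hdis, hTeq⟩
    -- the level sets
    have hcard : ∀ k, k ≤ ds.length → (L (k + 1)).card < ((d :: ds).take (k + 1)).prod := by
      intro k hk
      refine lt_of_le_of_lt (hL1 (k + 1) (by simpa using hk)) ?_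
      simp only [List.take_succ_cons, List.prod_cons]
      refine Nat.mul_lt_mul_of_pos_right hm ?_
      refine List.prod_pos ?_
      intro a ha
      exact hds' a (List.mem_of_mem_take ha)
    have hnew : ∀ u', ¬ ∃ T', OStar ds u' T' ∧
        ∀ p ∈ T', R (v :: p) ∧ ∀ k, ∀ h : k < p.length, p[k] ∉ L (k + 1) := by
      rintro u' ⟨T', hT', hR'⟩
      apply hm1
      refine ⟨T ∪ T'.image (List.cons v), ⟨Fin.cons u' u, Fin.cons T' P, ?_, ?_, ?_⟩, ?_⟩
      · intro i
        refine Fin.cases ?_ (fun i => ?_) i
        · simpa using hT'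
        · simpa using hP i
      · have key : ∀ j : Fin m, ∀ p ∈ T', ∀ q ∈ P j, List.Forall₂ (· ≠ ·) p q := by
          intro j p hp q hq
          rw [List.forall₂_iff_get]
          have e1 := hT'.length p hp
          have e2 := (hP j).length q hq
          refine ⟨by rw [e1, e2], fun k h1 h2 heq => ?_⟩
          have h3 := (hR' p hp).2 k h1
          apply h3
          have h4 : (v :: q) ∈ T := by
            rw [hTeq]
            exact mem_biUnion.2 ⟨j, mem_univ _, mem_image_of_mem _ hq⟩
          have h5 := hL2 _ h4 (k + 1) (by simpa using h2)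
          simp only [List.getElem_cons_succ] at h5
          simp only [List.get_eq_getElem] at heq
          rw [heq]
          exact h5
        intro i j hij p hp q hq
        revert hij hp hq
        refine Fin.cases ?_ (fun i => ?_) i <;> refine Fin.cases ?_ (fun j => ?_) j
        · intro h; exact absurd rfl h
        · intro _ hp hq
          simp only [Fin.cons_zero, Fin.cons_succ] at hp hq
          exact key j p hp q hq
        · intro _ hp hq
          simp only [Fin.cons_zero, Fin.cons_succ] at hp hq
          have := key i q hq p hp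
          rw [List.forall₂_iff_get] at this ⊢
          exact ⟨this.1.symm, fun k h1 h2 h => this.2 k h2 h1 h.symm⟩
        · intro hij hp hq
          simp only [Fin.cons_succ] at hp hq
          exact hdis i j (fun h => hij (by rw [h])) p hp q hq
      · rw [hTeq]
        ext p
        simp only [mem_union, mem_biUnion, mem_univ, true_and, Fin.exists_fin_succ, Fin.cons_zero,
          Fin.cons_succ]
        tauto
      · intro p hp
        rcases mem_union.1 hp with hp | hp
        · exact hTR p hp
        · obtain ⟨q, hq, rfl⟩ := mem_image.1 hp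
          exact (hR' q hq).1
    choose E hE1 hE2 using fun u' => ih hds'
      (fun p => R (v :: p) ∧ ∀ k, ∀ h : k < p.length, p[k] ∉ L (k + 1)) u' (hnew u')
    refine ⟨fun p l => match p with
      | [] => L l
      | u' :: p' => E u' p' (l - 1), ?_, ?_⟩
    · intro p l h1 h2
      rcases p with _ | ⟨u', p'⟩
      · obtain ⟨k, rfl⟩ : ∃ k, l = k + 1 := ⟨l - 1, by simp at h1; omega⟩
        simpa using hcard k (by simpa using h2)
      · obtain ⟨k, rfl⟩ : ∃ k, l = k + 1 := ⟨l - 1, by simp at h1; omega⟩
        simp only [List.length_cons, List.drop_succ_cons, Nat.add_sub_add_right, Nat.add_sub_cancel]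
        simp only [List.length_cons, Nat.add_lt_add_iff_right, Nat.add_le_add_iff_right] at h1 h2
        exact hE1 u' p' k h1 h2
    · intro p hp hR
      rcases p with _ | ⟨u', p'⟩
      · simp at hp
      · simp only [List.length_cons, Nat.add_right_cancel_iff] at hp
        by_cases hc : ∀ k, ∀ h : k < (u' :: p').length, (u' :: p')[k] ∉ L (k + 1)
        · obtain ⟨j, l, hjl, hl, hl2, hmem⟩ := hE2 u' p' hp ⟨hR, hc⟩
          refine ⟨j + 1, l + 1, by omega, by simp; omega, by simpa using hl2, ?_⟩
          obtain ⟨k, rfl⟩ : ∃ k, l = k + 1 := ⟨l - 1, by omega⟩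
          simpa using hmem
        · push Not at hc
          obtain ⟨k, hk, hmem⟩ := hc
          exact ⟨0, k + 1, by omega, by simpa using hk, by simp at hk ⊢; omega, by simpa using hmem⟩

end Pool.Agent.H21.GS
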