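import Pool.Agent.H21.Star.Defs

/-!
# The two sums in the bounds for the Turan numbers of generalised stars
-/

set_option autoImplicit false

namespace Pool.Agent.H21.GS

open Finset

/-- The sum over the last blocks of `ds = [d_1, …, d_(r-1)]`: with `t = j + 1` it is the sum over
`t = 1, …, r - 1` of `n ^ t * (d_t * ⋯ * d_(r-1) - 1) ^ (r - t)`. -/
def lowerSum (n : ℕ) (ds : List ℕ) : ℕ :=
  ∑ j ∈ range ds.length, n ^ (j + 1) * ((ds.drop j).prod - 1) ^ (ds.length - j)

/-- The sum over all blocks of consecutive entries of `ds = [d_1, …, d_(r-1)]`: a block with `m = k + 1`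
entries and with product `W` contributes `n ^ (r - m) * (W - 1) ^ m`. -/
def upperSum (n : ℕ) (ds : List ℕ) : ℕ :=
  ∑ j ∈ range ds.length, ∑ k ∈ range (ds.length - j),
    n ^ (ds.length - k) * (((ds.drop j).take (k + 1)).prod - 1) ^ (k + 1)

/-- The last blocks dominate up to the factor `K`: `W - 1 ≤ K (P - 1)` for the product `W` of any block
of `k` consecutive entries of `ds` and the product `P` of the last `k` entries. -/
def Dominated (K : ℕ) (ds : List ℕ) : Prop :=
  ∀ j k, j + k ≤ ds.length →
    ((ds.drop j).take k).prod - 1 ≤ K * ((ds.drop (ds.length - k)).prod - 1)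

end Pool.Agent.H21.GS
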