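import Pool.Agent.H21.GS.Count
import Pool.Agent.H21.GS.Sums

/-!
# The upper bound in terms of all blocks
-/

set_option autoImplicit false
set_option linter.unusedSectionVars false

namespace Pool.Agent.H21.GS

open Finset Pool.Agent.H21.Star

/-- The product of the entries number `j + 1, …, l` of `ds`. -/
def win (ds : List ℕ) (j l : ℕ) : ℕ := ((ds.drop j).take (l - j)).prod

theorem win_le {ds : List ℕ} (hds : ∀ d ∈ ds, 1 ≤ d) (j l : ℕ) : win ds j l ≤ ds.prod := by
  have pos : ∀ L : List ℕ, (∀ d ∈ L, 1 ≤ d) → 1 ≤ L.prod := fun L hL =>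
    List.prod_pos hL
  have e1 : (ds.take j).prod * (ds.drop j).prod = ds.prod := by
    rw [← List.prod_append, List.take_append_drop]
  have e2 : ((ds.drop j).take (l - j)).prod * ((ds.drop j).drop (l - j)).prod = (ds.drop j).prod := by
    rw [← List.prod_append, List.take_append_drop]
  have p1 := pos (ds.take j) fun d hd => hds d (List.mem_of_mem_take hd)
  have p2 := pos ((ds.drop j).drop (l - j)) fun d hd =>
    hds d (List.mem_of_mem_drop (List.mem_of_mem_drop hd))
  unfold win
  calc ((ds.drop j).take (l - j)).prod ≤ ((ds.drop j).take (l - j)).prod * ((ds.drop j).drop (l - j)).prod :=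
        Nat.le_mul_of_pos_right _ p2
    _ = (ds.drop j).prod := e2
    _ ≤ (ds.take j).prod * (ds.drop j).prod := Nat.le_mul_of_pos_left _ p1
    _ = ds.prod := e1

variable {V : Type*} [DecidableEq V] {m : ℕ}

/-- A covering system: for each order of the positions and each value of the first one, sets that
depend on a beginning of the tuple. -/
abbrev Sys (V : Type*) (m : ℕ) := Equiv.Perm (Fin (m + 1)) → V → List V → ℕ → Finset V

/-- The union of the covering sets that are known when the positions in `S` are known. -/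
def cover (ds : List ℕ) (E : Sys V m) (S : Finset (Fin (m + 1))) (x : Fin (m + 1) → V) (W : ℕ) :
    Finset V :=
  (univ : Finset (Equiv.Perm (Fin (m + 1)) × Fin (m + 1) × Fin (m + 1))).biUnion fun t =>
    if t.2.1 < t.2.2 ∧ win ds t.2.1 t.2.2 ≤ W ∧ ∀ a ≤ t.2.1, t.1 a ∈ S then
      E t.1 (x (t.1 0)) ((List.ofFn fun i : Fin m => x (t.1 i.succ)).take t.2.1) t.2.2 else ∅

/-- The number of the covering sets. -/
def K0 (m : ℕ) : ℕ := Fintype.card (Equiv.Perm (Fin (m + 1)) × Fin (m + 1) × Fin (m + 1))

theorem K0_pos (m : ℕ) : 0 < K0 m := Fintype.card_pos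

theorem card_cover {ds : List ℕ} (hlen : ds.length = m) {E : Sys V m}
    (hE : ∀ π v p l, p.length < l → l ≤ ds.length → (E π v p l).card < win ds p.length l)
    (S : Finset (Fin (m + 1))) (x : Fin (m + 1) → V) (W : ℕ) :
    (cover ds E S x W).card ≤ K0 m * (W - 1) := by
  unfold cover K0
  rw [← Finset.card_univ]
  refine card_biUnion_le_card_mul _ _ _ fun t _ => ?_
  split
  · rename_i h
    obtain ⟨h1, h2, h3⟩ := h
    have hl : ((List.ofFn fun i : Fin m => x (t.1 i.succ)).take t.2.1).length = t.2.1 := by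
      rw [List.length_take, List.length_ofFn]
      have := t.2.2.2
      have h1' : (t.2.1 : ℕ) < t.2.2 := h1
      omega
    have h1' : (t.2.1 : ℕ) < t.2.2 := h1
    have h4 := hE t.1 (x (t.1 0)) _ t.2.2 (by rw [hl]; exact h1') (by have := t.2.2.2; omega)
    rw [hl] at h4
    omega
  · simp

theorem cover_congr {ds : List ℕ} {E : Sys V m} {S : Finset (Fin (m + 1))} {x y : Fin (m + 1) → V}
    (h : ∀ i ∈ S, x i = y i) (W : ℕ) : cover ds E S x W = cover ds E S y W := by
  unfold cover
  congr 1
  funext t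
  split
  · rename_i ht
    obtain ⟨h1, h2, h3⟩ := ht
    have e0 : x (t.1 0) = y (t.1 0) := h _ (h3 0 (Fin.zero_le _))
    have e1 : (List.ofFn fun i : Fin m => x (t.1 i.succ)).take t.2.1 =
        (List.ofFn fun i : Fin m => y (t.1 i.succ)).take t.2.1 := by
      refine List.ext_getElem (by simp) ?_
      intro k hk1 hk2
      simp only [List.length_take, List.length_ofFn] at hk1
      simp only [List.getElem_take, List.getElem_ofFn]
      refine h _ (h3 _ ?_)
      rw [Fin.le_def]
      simp only [Fin.val_succ]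
      omega
    rw [e0, e1]
  · rfl

theorem cover_mono {ds : List ℕ} {E : Sys V m} {S S' : Finset (Fin (m + 1))} {x : Fin (m + 1) → V}
    {W W' : ℕ} (hS : S ⊆ S') (hW : W ≤ W') : cover ds E S x W ⊆ cover ds E S' x W' := by
  intro v hv
  unfold cover at hv ⊢
  obtain ⟨t, ht, hv⟩ := mem_biUnion.1 hv
  refine mem_biUnion.2 ⟨t, ht, ?_⟩
  split at hv
  · rename_i h
    rw [if_pos ⟨h.1, h.2.1.trans hW, fun a ha => hS (h.2.2 a ha)⟩]
    exact hv
  · simp at hv

theorem term_le (n : ℕ) {ds : List ℕ} {j l : ℕ} (hj : j < l) (hl : l ≤ ds.length) :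
    n ^ (ds.length + 1 - (l - j)) * (win ds j l - 1) ^ (l - j) ≤ upperSum n ds := by
  unfold upperSum
  have h1 : j ∈ range ds.length := mem_range.2 (by omega)
  refine le_trans ?_ (single_le_sum (f := fun j => ∑ k ∈ range (ds.length - j),
    n ^ (ds.length - k) * (((ds.drop j).take (k + 1)).prod - 1) ^ (k + 1)) (fun _ _ => Nat.zero_le _) h1)
  have h2 : l - j - 1 ∈ range (ds.length - j) := mem_range.2 (by omega)
  refine le_trans ?_ (single_le_sum (f := fun k =>
    n ^ (ds.length - k) * (((ds.drop j).take (k + 1)).prod - 1) ^ (k + 1)) (fun _ _ => Nat.zero_le _) h2)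
  have e1 : l - j - 1 + 1 = l - j := by omega
  have e2 : ds.length - (l - j - 1) = ds.length + 1 - (l - j) := by omega
  simp only [e1, e2, win, le_refl]

/-- The blocked systems of tuples are small. -/
theorem upper_tuples [Fintype V] {ds : List ℕ} (hlen : ds.length = m) (hds : ∀ d ∈ ds, 1 ≤ d)
    (X : Finset (Fin (m + 1) → V))
    (h : ∀ (π : Equiv.Perm (Fin (m + 1))) (v : V), ¬ ∃ T, OStar ds v T ∧
      ∀ p ∈ T, ∃ x ∈ X, (List.ofFn fun i => x (π i)) = p) :
    X.card ≤ K0 m * K0 m ^ (m + 1) * upperSum (Fintype.card V) ds := by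
  classical
  choose E hE1 hE2 using fun π v => pack ds hds
    (fun p => ∃ x ∈ X, (List.ofFn fun i => x (π i)) = p) v (h π v)
  have hE1' : ∀ π v p l, p.length < l → l ≤ ds.length → (E π v p l).card < win ds p.length l :=
    fun π v p l h1 h2 => hE1 π v p l h1 h2
  set XX : Equiv.Perm (Fin (m + 1)) × Fin (m + 1) × Fin (m + 1) → Finset (Fin (m + 1) → V) :=
    fun t => X.filter fun x => t.2.1 < t.2.2 ∧ ∀ k : Fin (m + 1), t.2.1 < k → k ≤ t.2.2 →
      x (t.1 k) ∈ cover ds E (pre t.1 k) x (win ds t.2.1 t.2.2) with hXX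
  have hcov : X ⊆ (univ : Finset (Equiv.Perm (Fin (m + 1)) × Fin (m + 1) × Fin (m + 1))).biUnion XX := by
    intro x hx
    have hex : ∀ (S : Finset (Fin (m + 1))) (p : Fin (m + 1)),
        ∃ W, x p ∈ cover ds E S x W ∨ ds.prod + 1 ≤ W := fun S p => ⟨_, Or.inr le_rfl⟩
    obtain ⟨σ, hσ, hgr⟩ := greedy (fun S p => Nat.find (hex S p))
    set π : Equiv.Perm (Fin (m + 1)) := Equiv.ofBijective σ hσ with hπ
    have hπσ : ∀ i, π i = σ i := fun i => rfl
    obtain ⟨j, l, hjl, hl0, hl, hmem⟩ := hE2 π (x (π 0)) (List.ofFn fun i : Fin m => x (π i.succ))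
      (by simp [hlen]) ⟨x, hx, by rw [List.ofFn_succ]⟩
    have hlm : l < m + 1 := by omega
    have hjm : j < m + 1 := by omega
    have hxl : (List.ofFn fun i : Fin m => x (π i.succ))[l - 1] = x (σ ⟨l, hlm⟩) := by
      rw [List.getElem_ofFn, hπσ]
      congr 2
      rw [Fin.ext_iff]
      simp only [Fin.val_succ]
      omega
    rw [hxl] at hmem
    refine mem_biUnion.2 ⟨(π, ⟨j, hjm⟩, ⟨l, hlm⟩), mem_univ _, mem_filter.2 ⟨hx, hjl, ?_⟩⟩
    intro k hk1 hk2
    simp only at hk1 hk2 ⊢
    have hk1' : j < (k : ℕ) := hk1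
    have hpre : pre (⇑π) (k : ℕ) = pre σ k := rfl
    rw [hpre, hπσ]
    -- the target is cheap
    have c1 : x (σ ⟨l, hlm⟩) ∈ cover ds E (pre σ k) x (win ds j l) := by
      unfold cover
      refine mem_biUnion.2 ⟨(π, ⟨j, hjm⟩, ⟨l, hlm⟩), mem_univ _, ?_⟩
      rw [if_pos]
      · exact hmem
      · refine ⟨hjl, le_rfl, fun a ha => ?_⟩
        have ha' : (a : ℕ) ≤ j := ha
        exact mem_image.2 ⟨a, mem_filter.2 ⟨mem_univ _, by omega⟩, rfl⟩
    have c2 : Nat.find (hex (pre σ k) (σ ⟨l, hlm⟩)) ≤ win ds j l := Nat.find_le (Or.inl c1)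
    have c3 := (hgr k ⟨l, hlm⟩ hk2).trans c2
    have c4 := Nat.find_spec (hex (pre σ k) (σ k))
    rcases c4 with c4 | c4
    · exact cover_mono (Subset.refl _) c3 c4
    · have := win_le hds j l
      omega
  have hcard : ∀ t, (XX t).card ≤ K0 m ^ (m + 1) * upperSum (Fintype.card V) ds := by
    intro t
    obtain ⟨π, j, l⟩ := t
    by_cases hjl : j < l
    · have hjl' : (j : ℕ) < l := hjl
      set W := win ds j l with hW
      refine (count (XX (π, j, l)) π π.bijective
        (fun k x => if j < k ∧ k ≤ l then cover ds E (pre π k) x W else univ)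
        (fun k => if j < k ∧ k ≤ l then K0 m * (W - 1) else Fintype.card V) ?_ ?_ ?_).trans ?_
      · intro k x y hxy
        by_cases hk : j < k ∧ k ≤ l
        · simp only [if_pos hk]
          refine cover_congr ?_ W
          intro i hi
          obtain ⟨a, ha, rfl⟩ := mem_image.1 hi
          exact hxy a (mem_filter.1 ha).2
        · simp only [if_neg hk]
      · intro k x
        by_cases hk : j < k ∧ k ≤ l
        · simp only [if_pos hk]
          exact card_cover hlen hE1' _ _ _
        · simp only [if_neg hk]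
          exact card_le_univ _
      · intro x hx k
        by_cases hk : j < k ∧ k ≤ l
        · simp only [if_pos hk]
          exact (mem_filter.1 hx).2.2 k hk.1 hk.2
        · simp only [if_neg hk]
          exact mem_univ _
      · rw [prod_ite, prod_const, prod_const]
        have e1 : (univ.filter fun k : Fin (m + 1) => j < k ∧ k ≤ l) = Ioc j l := by
          ext k; simp
        have e2 : (univ.filter fun k : Fin (m + 1) => j < k ∧ k ≤ l).card = l - j := by
          rw [e1, Fin.card_Ioc]
        have e3 : (univ.filter fun k : Fin (m + 1) => ¬ (j < k ∧ k ≤ l)).card = m + 1 - (l - j) := by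
          rw [filter_not, card_sdiff_of_subset (filter_subset _ _), e2, Finset.card_univ,
            Fintype.card_fin]
        rw [e2, e3, mul_pow]
        have hlm : (l : ℕ) ≤ m := by have := l.2; omega
        have h5 := term_le (Fintype.card V) (ds := ds) hjl' (by omega)
        rw [hlen] at h5
        calc K0 m ^ ((l : ℕ) - j) * (W - 1) ^ ((l : ℕ) - j) * Fintype.card V ^ (m + 1 - (l - j))
            = K0 m ^ ((l : ℕ) - j) * (Fintype.card V ^ (m + 1 - (l - j)) * (W - 1) ^ ((l : ℕ) - j)) := by
              ring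
          _ ≤ K0 m ^ (m + 1) * upperSum (Fintype.card V) ds := by
              refine Nat.mul_le_mul (Nat.pow_le_pow_right (K0_pos m) (by omega)) ?_
              exact h5
    · have : XX (π, j, l) = ∅ := by
        rw [hXX]
        refine filter_eq_empty_iff.2 ?_
        intro x _ hh
        exact hjl hh.1
      rw [this]
      simp
  refine (card_le_card hcov).trans ?_
  refine (card_biUnion_le_card_mul _ _ _ fun t _ => hcard t).trans ?_
  rw [Finset.card_univ, ← K0, mul_assoc]

end Pool.Agent.H21.GS
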